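import Pool.Agent.H510.PC.Pair2
import Pool.Agent.H510.UZ.Glob

/-!
Pairs of zeros whose shapes are in given classes.
-/

set_option autoImplicit false

open Complex Filter Topology MeasureTheory
open scoped UniformConvergence NNReal ENNReal
open Pool.Agent.Q97.UM (dp N2 mz fR Tst kap RHz)

namespace Pool.Agent.H510.PC

open Pool.Agent.H510.UZ

/-- restriction to `K` -/
noncomputable def toU (K : Set ℂ) (f : ℂ → ℂ) : K →ᵤ ℂ := UniformFun.ofFun (fun z : K => f z)

/-- the neighbourhood of a class -/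
def Snb (K : Set ℂ) (A : Set (ℂ → ℂ)) (η : ℝ) : Set (K →ᵤ ℂ) :=
  {u | ∃ f ∈ A, ∃ r < η, ∀ z : K, ‖UniformFun.toFun u z - f z‖ ≤ r}

/-- the functional of a class -/
noncomputable def PhiA (K : Set ℂ) {κ : ℝ} (hκ : 0 < κ) (A : Set (ℂ → ℂ)) (η : ℝ) (f : ℂ → ℂ) : ℝ :=
  ((thickenedIndicator hκ (Snb K A η) (toU K f) : ℝ≥0) : ℝ)

theorem PhiA_fun (K : Set ℂ) {κ : ℝ} (hκ : 0 < κ) (A : Set (ℂ → ℂ)) (η : ℝ) : Fun K κ⁻¹ (PhiA K hκ A η) := by
  constructor
  · intro f g c hc h
    have h1 : edist (toU K f) (toU K g) ≤ ENNReal.ofReal c := by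
      rw [UniformFun.edist_le]
      intro z
      rw [edist_dist]
      apply ENNReal.ofReal_le_ofReal
      rw [dist_eq_norm]
      exact h z z.2
    have h2 := lipschitzWith_thickenedIndicator hκ (Snb K A η) (toU K f) (toU K g)
    have h3 : edist (thickenedIndicator hκ (Snb K A η) (toU K f)) (thickenedIndicator hκ (Snb K A η) (toU K g)) ≤
        ENNReal.ofReal (κ⁻¹ * c) := by
      refine h2.trans ?_
      rw [ENNReal.ofReal_mul (by positivity), ENNReal.coe_inv (by
        rw [ne_eq, Real.toNNReal_eq_zero, not_le]; exact hκ), ENNReal.ofReal_inv_of_pos hκ]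
      exact mul_le_mul_right h1 _
    rw [edist_dist, ENNReal.ofReal_le_ofReal_iff (by positivity), NNReal.dist_eq] at h3
    exact h3
  · intro f
    exact NNReal.coe_nonneg _
  · intro f
    unfold PhiA
    exact_mod_cast thickenedIndicator_le_one hκ _ _

theorem PhiA_one {K : Set ℂ} {κ : ℝ} (hκ : 0 < κ) {A : Set (ℂ → ℂ)} {η t : ℝ} (h : Near K A η t) :
    PhiA K hκ A η (zv t) = 1 := by
  unfold PhiA
  rw [thickenedIndicator_one hκ]
  · simp
  · obtain ⟨f, hf, r, hr, h1⟩ := h
    exact ⟨f, hf, r, hr, fun z => h1 z z.2⟩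

theorem PhiA_zero {K : Set ℂ} {κ : ℝ} (hκ : 0 < κ) {A : Set (ℂ → ℂ)} {η t : ℝ} (h : ¬ Near K A (η + κ) t) :
    PhiA K hκ A η (zv t) = 0 := by
  unfold PhiA
  rw [thickenedIndicator_zero hκ]
  · simp
  · intro hcon
    apply h
    rw [Metric.mem_thickening_iff_exists_edist_lt] at hcon
    obtain ⟨u, ⟨f, hf, r, hr, h1⟩, h2⟩ := hcon
    have h3 : edist (toU K (zv t)) u ≠ ⊤ := ne_top_of_lt h2
    have h4 : (edist (toU K (zv t)) u).toReal < κ := by
      have := (ENNReal.toReal_lt_toReal h3 ENNReal.ofReal_ne_top).2 h2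
      rwa [ENNReal.toReal_ofReal hκ.le] at this
    refine ⟨f, hf, (edist (toU K (zv t)) u).toReal + r, by linarith, ?_⟩
    intro z hz
    have h5 : ‖riemannZeta (z + t * I) - UniformFun.toFun u ⟨z, hz⟩‖ ≤ (edist (toU K (zv t)) u).toReal := by
      have h6 := UniformFun.edist_eval_le (f := toU K (zv t)) (g := u) (x := ⟨z, hz⟩)
      have h7 := ENNReal.toReal_mono h3 h6
      rw [edist_dist, ENNReal.toReal_ofReal dist_nonneg, dist_eq_norm] at h7
      exact h7
    calc ‖riemannZeta (z + t * I) - f z‖ = ‖(riemannZeta (z + t * I) - UniformFun.toFun u ⟨z, hz⟩) +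
          (UniformFun.toFun u ⟨z, hz⟩ - f z)‖ := by congr 1; ring
      _ ≤ _ := (norm_add_le _ _).trans (add_le_add h5 (h1 ⟨z, hz⟩))

theorem int_ge (c : ℝ → ℝ) (hc : Continuous c) (h0 : ∀ t, 0 ≤ c t) (T : ℝ) (hT : 0 ≤ T) :
    V T (fun t => 1 ≤ c t) ≤ ∫ t in T..(2 * T), c t := by
  set A : Set ℝ := {t : ℝ | t ∈ Set.Icc T (2 * T) ∧ 1 ≤ c t} with hA
  have hAm : MeasurableSet A := measurableSet_Icc.inter (measurableSet_le measurable_const hc.measurable)
  have hAf : volume A ≠ ⊤ := V_fin T _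
  rw [intervalIntegral.integral_of_le (by linarith), ← integral_Icc_eq_integral_Ioc]
  calc V T (fun t => 1 ≤ c t) = ∫ t in Set.Icc T (2 * T), A.indicator (fun _ => (1 : ℝ)) t := by
        rw [setIntegral_indicator hAm]
        have e2 : Set.Icc T (2 * T) ∩ A = A := Set.inter_eq_right.2 fun t ht => ht.1
        rw [e2, setIntegral_const, smul_eq_mul, mul_one]
        rfl
    _ ≤ _ := by
        apply setIntegral_mono_on _ hc.continuousOn.integrableOn_Icc measurableSet_Icc
        · intro t ht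
          by_cases hA2 : t ∈ A
          · rw [Set.indicator_of_mem hA2]
            exact hA2.2
          · rw [Set.indicator_of_notMem hA2]
            exact h0 t
        · exact ((integrable_indicator_iff hAm).2 (integrableOn_const hAf)).integrableOn

theorem V_mono' (T : ℝ) (P Q : ℝ → Prop) (h : ∀ t, P t → Q t) : V T P ≤ V T Q := by
  apply ENNReal.toReal_mono (V_fin T Q)
  exact measure_mono fun t ht => ⟨ht.1, h t ht.2⟩

/-- for a nonnegative test function the predicted value is nonnegative -/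
theorem kap_nonneg (hRH : RHz) {R : ℝ → ℝ} {D₀ M lam : ℝ} (hR : Tst R D₀ M) (hlam : 0 < lam) (hlam1 : lam < 1)
    (h : ∀ x, 0 ≤ fR R (lam * x)) : 0 ≤ kap R lam := by
  by_contra hcon
  rw [not_le] at hcon
  have hpi := Real.pi_pos
  have hF : Fun (∅ : Set ℂ) 0 (fun _ => 1) := ⟨fun f g c _ _ => by simp, fun _ => zero_le_one, fun _ => le_rfl⟩
  have h1 := pair1 hRH hR hlam hlam1 ∅ isCompact_empty (by simp) 0 le_rfl (-kap R lam / (4 * Real.pi))
    (by apply div_pos <;> linarith)
  obtain ⟨T, hT1, hT2⟩ := (h1.and (eventually_ge_atTop 16)).exists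
  have h2 := hT1 _ hF
  have hL : 0 < Real.log T := Real.log_pos (by linarith)
  have h3 : 0 ≤ ∑ s ∈ H370.Zf riemannZeta T (2 * T), (mz s : ℝ) * (Wn R lam T s * 1) := by
    apply Finset.sum_nonneg
    intro s _
    apply mul_nonneg (Nat.cast_nonneg _)
    rw [mul_one]
    unfold Wn
    apply Finset.sum_nonneg
    intro s' _
    apply mul_nonneg (Nat.cast_nonneg _)
    rw [mul_assoc]
    exact h _
  have h4 := (abs_le.1 h2).2
  simp only [intervalIntegral.integral_const, smul_eq_mul, mul_one] at h4 h3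
  have h5 : kap R lam * (Real.log T / (2 * Real.pi)) * (2 * T - T) = kap R lam / (2 * Real.pi) * (T * Real.log T) := by
    field_simp; ring
  have h6 : -kap R lam / (4 * Real.pi) * T * Real.log T = -(kap R lam / (2 * Real.pi)) / 2 * (T * Real.log T) := by
    field_simp; ring
  rw [h5, h6] at h4
  have h7 : kap R lam / (2 * Real.pi) < 0 := div_neg_of_neg_of_pos hcon (by positivity)
  have h8 : 0 < T * Real.log T := by positivity
  nlinarith

open Classical in
/-- pairs of zeros with given properties of the ordinates -/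
noncomputable def PQ (h : ℝ → ℝ) (T : ℝ) (P Q : ℝ → Prop) : ℝ :=
  ∑ s ∈ (H370.Zf riemannZeta T (2 * T)).filter (fun s => P s.im),
    ∑ s' ∈ (H370.Zf riemannZeta T (2 * T)).filter (fun s => Q s.im),
      (mz s : ℝ) * (mz s' : ℝ) * h (Real.log T * (s.im - s'.im))

open Classical in
theorem cls (hRH : RHz) {R : ℝ → ℝ} {D₀ M lam : ℝ} (hR : Tst R D₀ M) (hlam : 0 < lam) (hlam1 : lam < 1)
    (K : Set ℂ) (hK : IsCompact K) (hKs : ∀ z ∈ K, 1 / 2 < z.re ∧ z.re < 1) (κ : ℝ) (hκ : 0 < κ) (ε : ℝ) (hε : 0 < ε) :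
    ∀ᶠ T : ℝ in atTop, ∀ (A B : Set (ℂ → ℂ)) (η : ℝ) (h : ℝ → ℝ), (∀ x, 0 ≤ h x) →
      ((∀ x, fR R (lam * x) ≤ h x) → kap R lam * (Real.log T / (2 * Real.pi)) * V T (fun t => Near K A η t ∧ Near K B η t) -
        ε * T * Real.log T ≤ PQ h T (Near K A (η + κ)) (Near K B (η + κ))) ∧
      ((∀ x, h x ≤ fR R (lam * x)) → PQ h T (Near K A η) (Near K B η) ≤
        kap R lam * (Real.log T / (2 * Real.pi)) * V T (fun t => Near K A (η + κ) t ∧ Near K B (η + κ) t) +
          ε * T * Real.log T) := by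
  filter_upwards [pair2 hRH hR hlam hlam1 K hK hKs κ⁻¹ (by positivity) ε hε, eventually_ge_atTop 16] with T hP hT A B η h hh
  have hL : 0 < Real.log T := Real.log_pos (by linarith)
  have hT0 : 0 < T := by linarith
  have hA := PhiA_fun K hκ A η
  have hB := PhiA_fun K hκ B η
  have h1 := hP _ _ hA hB
  rw [abs_le] at h1
  have hK1 : ∀ z ∈ K, z.re < 1 := fun z hz => (hKs z hz).2
  have hcA := val_cont hK hK1 (by positivity) hA
  have hcB := val_cont hK hK1 (by positivity) hB
  have hcAB : Continuous fun t => PhiA K hκ A η (zv t) * PhiA K hκ B η (zv t) := hcA.mul hcB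
  set w := Real.log T / (2 * Real.pi) with hw
  have hw0 : 0 < w := by positivity
  have hεT : 0 ≤ ε * T * Real.log T := by positivity
  have hPQ0 : ∀ P Q : ℝ → Prop, 0 ≤ PQ h T P Q := by
    intro P Q
    unfold PQ
    refine Finset.sum_nonneg fun s _ => Finset.sum_nonneg fun s' _ => ?_
    exact mul_nonneg (by positivity) (hh _)
  have hexp : ∀ P Q : ℝ → Prop, PQ h T P Q = ∑ s ∈ H370.Zf riemannZeta T (2 * T), ∑ s' ∈ H370.Zf riemannZeta T (2 * T),
      (mz s : ℝ) * (mz s' : ℝ) * (if P s.im ∧ Q s'.im then h (Real.log T * (s.im - s'.im)) else 0) := by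
    intro P Q
    unfold PQ
    rw [Finset.sum_filter]
    refine Finset.sum_congr rfl fun s _ => ?_
    split_ifs with h2
    · rw [Finset.sum_filter]
      refine Finset.sum_congr rfl fun s' _ => ?_
      split_ifs with h3 h4 h4
      · rfl
      · exact absurd ⟨h2, h3⟩ h4
      · exact absurd h4.2 h3
      · simp
    · symm
      apply Finset.sum_eq_zero
      intro s' _
      rw [if_neg fun h3 => h2 h3.1, mul_zero]
  have hf0 : ∀ s s' : ℂ, 0 ≤ (mz s : ℝ) * (mz s' : ℝ) := fun s s' => by positivity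
  constructor
  · intro hf
    by_cases hk : 0 ≤ kap R lam
    · have h2 : V T (fun t => Near K A η t ∧ Near K B η t) ≤ ∫ t in T..(2 * T), PhiA K hκ A η (zv t) * PhiA K hκ B η (zv t) := by
        refine (V_mono' T _ _ ?_).trans (int_ge _ hcAB (fun t => mul_nonneg (hA.nonneg _) (hB.nonneg _)) T hT0.le)
        rintro t ⟨h3, h4⟩
        rw [PhiA_one hκ h3, PhiA_one hκ h4, mul_one]
      have h3 : kap R lam * w * V T (fun t => Near K A η t ∧ Near K B η t) ≤
          kap R lam * w * ∫ t in T..(2 * T), PhiA K hκ A η (zv t) * PhiA K hκ B η (zv t) := by gcongr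
      have h4 : ∑ s ∈ H370.Zf riemannZeta T (2 * T), ∑ s' ∈ H370.Zf riemannZeta T (2 * T), (mz s : ℝ) * (mz s' : ℝ) *
          (PhiA K hκ A η (zv s.im) * PhiA K hκ B η (zv s'.im) * fR R (lam * Real.log T * (s.im - s'.im))) ≤
          PQ h T (Near K A (η + κ)) (Near K B (η + κ)) := by
        rw [hexp]
        refine Finset.sum_le_sum fun s _ => Finset.sum_le_sum fun s' _ => mul_le_mul_of_nonneg_left ?_ (hf0 s s')
        have h5 := hf (Real.log T * (s.im - s'.im))
        rw [← mul_assoc] at h5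
        have h6 := hh (Real.log T * (s.im - s'.im))
        split_ifs with h7
        · have h8 : 0 ≤ PhiA K hκ A η (zv s.im) * PhiA K hκ B η (zv s'.im) := mul_nonneg (hA.nonneg _) (hB.nonneg _)
          have h9 : PhiA K hκ A η (zv s.im) * PhiA K hκ B η (zv s'.im) ≤ 1 := mul_le_one₀ (hA.le_one _) (hB.nonneg _) (hB.le_one _)
          calc _ ≤ PhiA K hκ A η (zv s.im) * PhiA K hκ B η (zv s'.im) * h (Real.log T * (s.im - s'.im)) :=
                mul_le_mul_of_nonneg_left h5 h8
            _ ≤ 1 * h (Real.log T * (s.im - s'.im)) := mul_le_mul_of_nonneg_right h9 h6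
            _ = _ := one_mul _
        · rw [not_and_or] at h7
          rcases h7 with h7 | h7
          · rw [PhiA_zero hκ h7]; simp
          · rw [PhiA_zero hκ h7]; simp
      linarith [h1.1]
    · have h2 : kap R lam * w * V T (fun t => Near K A η t ∧ Near K B η t) ≤ 0 := by
        apply mul_nonpos_of_nonpos_of_nonneg _ (V_nonneg T _)
        exact mul_nonpos_of_nonpos_of_nonneg (not_le.1 hk).le hw0.le
      linarith [hPQ0 (Near K A (η + κ)) (Near K B (η + κ))]
  · intro hf
    have hf0' : ∀ x, 0 ≤ fR R (lam * x) := fun x => (hh x).trans (hf x)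
    have hk := kap_nonneg hRH hR hlam hlam1 hf0'
    have h2 : ∫ t in T..(2 * T), PhiA K hκ A η (zv t) * PhiA K hκ B η (zv t) ≤
        V T (fun t => Near K A (η + κ) t ∧ Near K B (η + κ) t) := by
      have h3 := int_le _ hcAB (fun t => mul_le_one₀ (hA.le_one _) (hB.nonneg _) (hB.le_one _)) 0 le_rfl T hT0.le
      rw [zero_mul, zero_add] at h3
      refine h3.trans (V_mono' T _ _ ?_)
      intro t h4
      by_contra h5
      rw [not_and_or] at h5
      rcases h5 with h5 | h5
      · rw [PhiA_zero hκ h5, zero_mul] at h4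
        exact lt_irrefl _ h4
      · rw [PhiA_zero hκ h5, mul_zero] at h4
        exact lt_irrefl _ h4
    have h3 : kap R lam * w * ∫ t in T..(2 * T), PhiA K hκ A η (zv t) * PhiA K hκ B η (zv t) ≤
        kap R lam * w * V T (fun t => Near K A (η + κ) t ∧ Near K B (η + κ) t) := by gcongr
    have h4 : PQ h T (Near K A η) (Near K B η) ≤
        ∑ s ∈ H370.Zf riemannZeta T (2 * T), ∑ s' ∈ H370.Zf riemannZeta T (2 * T), (mz s : ℝ) * (mz s' : ℝ) *
          (PhiA K hκ A η (zv s.im) * PhiA K hκ B η (zv s'.im) * fR R (lam * Real.log T * (s.im - s'.im))) := by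
      rw [hexp]
      refine Finset.sum_le_sum fun s _ => Finset.sum_le_sum fun s' _ => mul_le_mul_of_nonneg_left ?_ (hf0 s s')
      have h5 := hf (Real.log T * (s.im - s'.im))
      have h6 := hf0' (Real.log T * (s.im - s'.im))
      rw [← mul_assoc] at h5 h6
      split_ifs with h7
      · rw [PhiA_one hκ h7.1, PhiA_one hκ h7.2, one_mul, one_mul]
        exact h5
      · exact mul_nonneg (mul_nonneg (hA.nonneg _) (hB.nonneg _)) h6
    linarith [h1.2]

end Pool.Agent.H510.PC
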