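import Pool.Agent.H510.PC.Wt
import Pool.Graph.R_pool_sql_team_seeded_3997aac3.Q97.UM.Pf
import Pool.Graph.R_pool_sql_team_seeded_3997aac3.Q97.UM.Base7

/-!
The pair sum over the zeros, weighted by a functional of the shape of zeta to the right of the critical line.
-/

set_option autoImplicit false

open Complex Filter Topology MeasureTheory
open Pool.Agent.Q97.UM (dp N2 mz fR Tst kap RHz SS PSf AgF SSB)

namespace Pool.Agent.H510.PC

open Pool.Agent.H510.UZ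

/-- the sum over the neighbours of a zero -/
noncomputable def Wn (R : ℝ → ℝ) (lam T : ℝ) (s : ℂ) : ℝ :=
  ∑ s' ∈ H370.Zf riemannZeta T (2 * T), (mz s' : ℝ) * fR R (lam * Real.log T * (s.im - s'.im))

theorem Wn_PSf (R : ℝ → ℝ) (lam T : ℝ) (N : ℕ) (b : ℕ → ℂ) :
    ∑ s ∈ H370.Zf riemannZeta T (2 * T), (mz s : ℝ) * (Wn R lam T s * ‖dp N b s.im‖ ^ 2) = PSf R lam T N b := by
  unfold PSf Wn
  refine Finset.sum_congr rfl fun s _ => ?_
  rw [Finset.sum_mul, Finset.mul_sum]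
  refine Finset.sum_congr rfl fun s' _ => ?_
  ring

/-- the kernel -/
theorem ker_le {R : ℝ → ℝ} {D M lam : ℝ} (hR : Tst R D M) (hlam : 0 < lam) (hlam1 : lam ≤ 1) (u : ℝ) :
    |fR R (lam * u)| ≤ 2 * (M / lam ^ 2) * (1 / (1 + |u|) ^ 2) := by
  obtain ⟨hM, h1, -⟩ := Pool.Agent.Q16.UM3.fR_bd hR hlam hlam1 u
  have hM2 : 0 ≤ M / lam ^ 2 := by positivity
  refine h1.trans ?_
  have h2 : 1 / (1 + u ^ 2) ≤ 2 * (1 / (1 + |u|) ^ 2) := by
    rw [← sq_abs u, mul_one_div, div_le_div_iff₀ (by positivity) (by positivity)]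
    nlinarith [sq_nonneg (|u| - 1)]
  calc M / lam ^ 2 * (1 / (1 + u ^ 2)) ≤ M / lam ^ 2 * (2 * (1 / (1 + |u|) ^ 2)) := by gcongr
    _ = _ := by ring

theorem Zf_sub_ZD {T : ℝ} (hT : 16 ≤ T) : H370.Zf riemannZeta T (2 * T) ⊆ Pool.Agent.Q97.UM.ZD T := by
  intro s hs
  rw [H370.mem_Zf H370.good_zeta (by linarith)] at hs
  unfold Pool.Agent.Q97.UM.ZD
  rw [H370.mem_Zf H370.good_zeta (by linarith)]
  obtain ⟨a1, a2, a3, a4, a5⟩ := hs
  exact ⟨a1, a2, by linarith, by linarith, a5⟩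

/-- the sum of the kernel over the neighbours -/
theorem SS_ge {T δ : ℝ} (hT : 16 ≤ T) (hδ : 0 ≤ δ) (t : ℝ) :
    ∑ s' ∈ H370.Zf riemannZeta T (2 * T), (mz s' : ℝ) * (1 / (1 + Real.log T * |s'.im - t|) ^ 2) ≤ SS δ T t := by
  have hL : 0 ≤ Real.log T := Real.log_nonneg (by linarith)
  unfold SS
  refine (Finset.sum_le_sum fun s' _ => ?_).trans
    (Finset.sum_le_sum_of_subset_of_nonneg (Zf_sub_ZD hT) fun s' _ _ => by positivity)
  apply mul_le_mul_of_nonneg_left _ (Nat.cast_nonneg _)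
  apply div_le_div_of_nonneg_right _ (by positivity)
  exact Real.one_le_exp (by positivity)

theorem AgF_le {R : ℝ → ℝ} {D M lam : ℝ} (hR : Tst R D M) (hlam : 0 < lam) (hlam1 : lam ≤ 1) {T δ : ℝ} (hT : 16 ≤ T)
    (hδ : 0 ≤ δ) (s : ℂ) : AgF R lam T s ≤ 2 * (M / lam ^ 2) * SS δ T s.im := by
  have hL : 0 ≤ Real.log T := Real.log_nonneg (by linarith)
  have hM := (Pool.Agent.Q16.UM3.fR_bd hR hlam hlam1 0).1
  unfold AgF
  calc _ ≤ ∑ s' ∈ H370.Zf riemannZeta T (2 * T), 2 * (M / lam ^ 2) * ((mz s' : ℝ) * (1 / (1 + Real.log T * |s'.im - s.im|) ^ 2)) := by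
        refine Finset.sum_le_sum fun s' _ => ?_
        have h1 := ker_le hR hlam hlam1 (Real.log T * (s.im - s'.im))
        rw [abs_mul, abs_of_nonneg hL, abs_sub_comm s.im s'.im] at h1
        calc (mz s' : ℝ) * |fR R (lam * Real.log T * (s.im - s'.im))| =
            (mz s' : ℝ) * |fR R (lam * (Real.log T * (s.im - s'.im)))| := by rw [mul_assoc]
          _ ≤ (mz s' : ℝ) * (2 * (M / lam ^ 2) * (1 / (1 + Real.log T * |s'.im - s.im|) ^ 2)) :=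
              mul_le_mul_of_nonneg_left h1 (Nat.cast_nonneg _)
          _ = _ := by ring
    _ = 2 * (M / lam ^ 2) * ∑ s' ∈ H370.Zf riemannZeta T (2 * T), (mz s' : ℝ) * (1 / (1 + Real.log T * |s'.im - s.im|) ^ 2) := by
        rw [Finset.mul_sum]
    _ ≤ _ := by
        gcongr
        exact SS_ge hT hδ s.im

theorem Wn_le_AgF (R : ℝ → ℝ) (lam T : ℝ) (s : ℂ) : |Wn R lam T s| ≤ AgF R lam T s := by
  unfold Wn AgF
  refine (Finset.abs_sum_le_sum_abs _ _).trans (Finset.sum_le_sum fun s' _ => ?_)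
  rw [abs_mul, abs_of_nonneg (Nat.cast_nonneg _ : (0:ℝ) ≤ (mz s' : ℝ))]

/-- the second moment of `SS` over the zeros -/
theorem SS_two : ∃ δ C : ℝ, 0 < δ ∧ 0 ≤ C ∧ ∀ᶠ T : ℝ in atTop,
    ∑ s ∈ H370.Zf riemannZeta T (2 * T), (mz s : ℝ) * SS δ T s.im ^ 2 ≤ C * T * Real.log T := by
  obtain ⟨θ, c, C, hθ, hθ1, hc, hC, hT⟩ := Pool.Agent.Q97.UM.b_TAIL
  obtain ⟨C', hC', h1⟩ := Pool.Agent.Q97.UM.b_STM θ c C hθ hθ1 hc hC hT 3 (c / 64) (by positivity) (by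
    push_cast; linarith)
  have hS : SSB (θ / 2) (c / 64) (2 + 1) C' := h1
  obtain ⟨C₂, hC₂, h2⟩ := Pool.Agent.Q97.UM.b_DSC (θ / 2) (c / 64) 2 C' (by positivity) (by linarith) (by positivity) hC' hS
  refine ⟨c / 64, C₂, by positivity, hC₂, ?_⟩
  filter_upwards [h2, eventually_ge_atTop 1] with T h3 hT1
  have hθ₂1 : ((1 : ℕ) : ℝ) ≤ T ^ (θ / 2) := by
    rw [Nat.cast_one]; exact Real.one_le_rpow hT1 (by positivity)
  have hone := h3 1 hθ₂1 (fun _ => 1)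
  have hN21 : N2 1 (fun _ => (1 : ℂ)) = 1 := by simp [N2]
  have hdp1 : ∀ t : ℝ, dp 1 (fun _ => (1 : ℂ)) t = 1 := by intro t; simp [dp]
  simp only [hN21, hdp1, norm_one, one_pow, mul_one] at hone
  linarith

theorem Wn_sq {R : ℝ → ℝ} {D M lam : ℝ} (hR : Tst R D M) (hlam : 0 < lam) (hlam1 : lam ≤ 1) :
    ∃ C : ℝ, ∀ᶠ T : ℝ in atTop, ∑ s ∈ H370.Zf riemannZeta T (2 * T), (mz s : ℝ) * Wn R lam T s ^ 2 ≤ C * T * Real.log T := by
  obtain ⟨δ, C, hδ, hC, h⟩ := SS_two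
  have hM := (Pool.Agent.Q16.UM3.fR_bd hR hlam hlam1 0).1
  refine ⟨(2 * (M / lam ^ 2)) ^ 2 * C, ?_⟩
  filter_upwards [h, eventually_ge_atTop 16] with T h hT
  calc _ ≤ ∑ s ∈ H370.Zf riemannZeta T (2 * T), (2 * (M / lam ^ 2)) ^ 2 * ((mz s : ℝ) * SS δ T s.im ^ 2) := by
        refine Finset.sum_le_sum fun s _ => ?_
        have h1 : |Wn R lam T s| ≤ 2 * (M / lam ^ 2) * SS δ T s.im :=
          (Wn_le_AgF R lam T s).trans (AgF_le hR hlam hlam1 hT hδ.le s)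
        have h2 : Wn R lam T s ^ 2 ≤ (2 * (M / lam ^ 2) * SS δ T s.im) ^ 2 := by
          rw [← sq_abs]
          exact pow_le_pow_left₀ (abs_nonneg _) h1 2
        calc (mz s : ℝ) * Wn R lam T s ^ 2 ≤ (mz s : ℝ) * (2 * (M / lam ^ 2) * SS δ T s.im) ^ 2 :=
              mul_le_mul_of_nonneg_left h2 (Nat.cast_nonneg _)
          _ = _ := by ring
    _ = (2 * (M / lam ^ 2)) ^ 2 * ∑ s ∈ H370.Zf riemannZeta T (2 * T), ((mz s : ℝ) * SS δ T s.im ^ 2) := by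
        rw [Finset.mul_sum]
    _ ≤ (2 * (M / lam ^ 2)) ^ 2 * (C * T * Real.log T) := by gcongr
    _ = _ := by ring

/-- **one functional** -/
theorem pair1 (hRH : RHz) {R : ℝ → ℝ} {D₀ M lam : ℝ} (hR : Tst R D₀ M) (hlam : 0 < lam) (hlam1 : lam < 1)
    (K : Set ℂ) (hK : IsCompact K) (hKs : ∀ z ∈ K, 1 / 2 < z.re ∧ z.re < 1) (D : ℝ) (hD : 0 ≤ D) (ε : ℝ) (hε : 0 < ε) :
    ∀ᶠ T : ℝ in atTop, ∀ Φ : (ℂ → ℂ) → ℝ, Fun K D Φ →
      |∑ s ∈ H370.Zf riemannZeta T (2 * T), (mz s : ℝ) * (Wn R lam T s * Φ (zv s.im)) -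
        kap R lam * (Real.log T / (2 * Real.pi)) * (∫ t in T..(2 * T), Φ (zv t))| ≤ ε * T * Real.log T := by
  have h1 := low_transfer (kap R lam) (Wn R lam) (by
    intro e he
    obtain ⟨θ, hθ, -, h⟩ := Pool.Agent.Q97.UM.SPCF hRH R D₀ M lam e hR hlam hlam1 he
    refine ⟨θ, hθ, ?_⟩
    filter_upwards [h] with T h N hN b
    have h2 := (abs_le.1 (h N hN b)).1
    rw [Wn_PSf]
    linarith) (Wn_sq hR hlam hlam1.le) K hK hKs D hD ε hε
  have h2 := low_transfer (-kap R lam) (fun T s => -Wn R lam T s) (by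
    intro e he
    obtain ⟨θ, hθ, -, h⟩ := Pool.Agent.Q97.UM.SPCF hRH R D₀ M lam e hR hlam hlam1 he
    refine ⟨θ, hθ, ?_⟩
    filter_upwards [h] with T h N hN b
    have h2 := (abs_le.1 (h N hN b)).2
    have h3 : ∑ s ∈ H370.Zf riemannZeta T (2 * T), (mz s : ℝ) * (-Wn R lam T s * ‖dp N b s.im‖ ^ 2) = -PSf R lam T N b := by
      rw [← Wn_PSf, ← Finset.sum_neg_distrib]
      refine Finset.sum_congr rfl fun s _ => ?_
      ring
    rw [h3]
    linarith) (by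
    obtain ⟨C, hC⟩ := Wn_sq hR hlam hlam1.le
    exact ⟨C, hC.mono fun T h => by simpa only [neg_sq] using h⟩) K hK hKs D hD ε hε
  filter_upwards [h1, h2] with T h1 h2 Φ hΦ
  have h3 := h1 Φ hΦ
  have h4 := h2 Φ hΦ
  have h5 : ∑ s ∈ H370.Zf riemannZeta T (2 * T), (mz s : ℝ) * (-Wn R lam T s * Φ (zv s.im)) =
      -∑ s ∈ H370.Zf riemannZeta T (2 * T), (mz s : ℝ) * (Wn R lam T s * Φ (zv s.im)) := by
    rw [← Finset.sum_neg_distrib]
    refine Finset.sum_congr rfl fun s _ => ?_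
    ring
  rw [h5] at h4
  rw [abs_le]
  constructor <;> linarith

end Pool.Agent.H510.PC
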