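import Pool.Agent.H510.PC.Pair

/-!
The pair sum over the zeros, weighted by functionals of the shapes of zeta at both zeros.
-/

set_option autoImplicit false

open Complex Filter Topology MeasureTheory
open Pool.Agent.Q97.UM (dp N2 mz fR Tst kap RHz SS PSf AgF SSB)

namespace Pool.Agent.H510.PC

open Pool.Agent.H510.UZ

theorem ph_lip (N : ℕ) (t t' : ℝ) : dist (ph N t) (ph N t') ≤ N * |t - t'| := by
  rw [dist_pi_le_iff (by positivity)]
  intro n
  have hn := Finset.mem_Icc.mp n.2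
  have h0 : dist (ph N t n) (ph N t' n) = ‖((ph N t n : Circle) : ℂ) - ((ph N t' n : Circle) : ℂ)‖ := by
    rw [← dist_eq_norm]; rfl
  rw [h0]
  unfold ph
  rw [Circle.coe_exp, Circle.coe_exp]
  have h1 : cexp ((-(t * Real.log (n : ℕ)) : ℝ) * I) - cexp ((-(t' * Real.log (n : ℕ)) : ℝ) * I) =
      cexp ((-(t' * Real.log (n : ℕ)) : ℝ) * I) * (cexp (I * ((-(t * Real.log (n : ℕ)) + t' * Real.log (n : ℕ) : ℝ))) - 1) := by
    rw [mul_sub, mul_one, ← Complex.exp_add]
    congr 2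
    push_cast
    ring
  rw [h1, norm_mul, Complex.norm_exp_ofReal_mul_I, one_mul]
  refine (Real.norm_exp_I_mul_ofReal_sub_one_le).trans ?_
  rw [Real.norm_eq_abs, show -(t * Real.log (n : ℕ)) + t' * Real.log (n : ℕ) = -(Real.log (n : ℕ) * (t - t')) by ring, abs_neg,
    abs_mul]
  apply mul_le_mul_of_nonneg_right _ (abs_nonneg _)
  rw [abs_of_nonneg (Real.log_natCast_nonneg _)]
  have h2 : (n : ℝ) ≤ N := by exact_mod_cast hn.2
  exact (Real.log_le_self (Nat.cast_nonneg _)).trans h2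

theorem floor_ker (x : ℝ) : 1 / (1 + x ^ 2) ≤ 3 / (1 + ((⌊x⌋ : ℤ) : ℝ) ^ 2) := by
  have h1 := Int.floor_le x
  have h2 := Int.lt_floor_add_one x
  rw [div_le_div_iff₀ (by positivity) (by positivity)]
  have h3 : (x - ⌊x⌋) ^ 2 ≤ 1 := by
    have : 0 ≤ x - ⌊x⌋ := by linarith
    nlinarith
  nlinarith [sq_nonneg (x + (x - ⌊x⌋))]

theorem ker_summable : Summable fun k : ℤ => 3 / (1 + (k : ℝ) ^ 2) := by
  have h := (Real.summable_one_div_int_pow (p := 2)).2 one_lt_two
  refine Summable.of_norm_bounded_eventually (h.mul_left 3) ?_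
  have h1 : ∀ᶠ k : ℤ in cofinite, k ≠ 0 := by
    rw [Filter.eventually_cofinite]
    simp
  filter_upwards [h1] with k hk
  have hk0 : (0 : ℝ) < (k : ℝ) ^ 2 := by positivity
  rw [Real.norm_of_nonneg (by positivity), mul_one_div]
  apply div_le_div_of_nonneg_left (by norm_num) hk0 (by linarith)

theorem kernel_all : ∃ C : ℝ, 0 ≤ C ∧ ∀ T : ℝ, 16 ≤ T → ∀ t : ℝ,
    ∑ s ∈ H370.Zf riemannZeta T (2 * T), (mz s : ℝ) * (1 / (1 + (s.im - t) ^ 2)) ≤ C * Real.log T := by
  obtain ⟨C, hC, h⟩ := H370.local_sum H370.good_zeta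
  refine ⟨C * ∑' k : ℤ, 3 / (1 + (k : ℝ) ^ 2), by positivity, ?_⟩
  intro T hT t
  have h1 := h T (by linarith) T (2 * T) le_rfl le_rfl t (fun k => 3 / (1 + (k : ℝ) ^ 2)) (fun k => by positivity)
    (fun s => 1 / (1 + (s.im - t) ^ 2)) (fun s _ => floor_ker _)
  refine (show _ ≤ _ from h1).trans ?_
  have hL : 0 ≤ Real.log T := Real.log_nonneg (by linarith)
  have h2 : ∑ k ∈ (H370.Zf riemannZeta T (2 * T)).image (fun s => ⌊s.im - t⌋), 3 / (1 + (k : ℝ) ^ 2) ≤
      ∑' k : ℤ, 3 / (1 + (k : ℝ) ^ 2) := ker_summable.sum_le_tsum _ (fun k _ => by positivity)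
  calc _ ≤ C * Real.log T * ∑' k : ℤ, 3 / (1 + (k : ℝ) ^ 2) := by gcongr
    _ = _ := by ring

/-- far neighbours contribute little -/
theorem far : ∃ C : ℝ, 0 ≤ C ∧ ∀ T : ℝ, 16 ≤ T → 1 ≤ Real.log T → ∀ v : ℝ, 0 < v → v ≤ 1 → ∀ t : ℝ,
    ∑ s ∈ H370.Zf riemannZeta T (2 * T), (mz s : ℝ) * (if v < |s.im - t| then 1 / (1 + Real.log T * |s.im - t|) ^ 2 else 0) ≤
      C / (Real.log T * v ^ 2) := by
  obtain ⟨C, hC, h⟩ := kernel_all
  refine ⟨2 * C, by positivity, ?_⟩
  intro T hT hL1 v hv hv1 t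
  have hL : 0 < Real.log T := by linarith
  set L := Real.log T with hLdef
  calc _ ≤ ∑ s ∈ H370.Zf riemannZeta T (2 * T), 2 / (L ^ 2 * v ^ 2) * ((mz s : ℝ) * (1 / (1 + (s.im - t) ^ 2))) := by
        refine Finset.sum_le_sum fun s _ => ?_
        have hm : (0 : ℝ) ≤ mz s := Nat.cast_nonneg _
        have key : (if v < |s.im - t| then 1 / (1 + L * |s.im - t|) ^ 2 else 0) ≤ 2 / (L ^ 2 * v ^ 2) * (1 / (1 + (s.im - t) ^ 2)) := by
          split_ifs with h1
          · set u := |s.im - t| with hu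
            have hu0 : 0 < u := hv.trans h1
            rw [← sq_abs (s.im - t), ← hu, div_mul_div_comm, mul_one, div_le_div_iff₀ (by positivity) (by positivity)]
            have e1 : v ^ 2 ≤ u ^ 2 := pow_le_pow_left₀ hv.le h1.le 2
            have e2 : v ^ 2 * u ^ 2 ≤ 1 * u ^ 2 := by
              apply mul_le_mul_of_nonneg_right _ (by positivity)
              exact pow_le_one₀ hv.le hv1
            have e3 : v ^ 2 * (1 + u ^ 2) ≤ 2 * u ^ 2 := by linarith
            have e4 : (L * u) ^ 2 ≤ (1 + L * u) ^ 2 := pow_le_pow_left₀ (by positivity) (by linarith) 2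
            calc 1 * (L ^ 2 * v ^ 2 * (1 + u ^ 2)) = L ^ 2 * (v ^ 2 * (1 + u ^ 2)) := by ring
              _ ≤ L ^ 2 * (2 * u ^ 2) := by gcongr
              _ = 2 * (L * u) ^ 2 := by ring
              _ ≤ 2 * (1 + L * u) ^ 2 := by gcongr
          · positivity
        calc (mz s : ℝ) * _ ≤ (mz s : ℝ) * (2 / (L ^ 2 * v ^ 2) * (1 / (1 + (s.im - t) ^ 2))) :=
              mul_le_mul_of_nonneg_left key hm
          _ = _ := by ring
    _ = 2 / (L ^ 2 * v ^ 2) * ∑ s ∈ H370.Zf riemannZeta T (2 * T), ((mz s : ℝ) * (1 / (1 + (s.im - t) ^ 2))) := by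
        rw [Finset.mul_sum]
    _ ≤ 2 / (L ^ 2 * v ^ 2) * (C * L) := by
        gcongr
        exact h T hT t
    _ = 2 * C / (L * v ^ 2) := by field_simp

/-- the total number of zeros -/
theorem all_zeros : ∀ᶠ T : ℝ in atTop, ∑ s ∈ H370.Zf riemannZeta T (2 * T), (mz s : ℝ) ≤ T * Real.log T := by
  obtain ⟨θ₂, hθ₂0, -, hSA⟩ := Pool.Agent.Q97.UM.b_SAMP (1 / 2) (by norm_num)
  filter_upwards [hSA, eventually_ge_atTop 16] with T hSA hT
  have hT0 : 0 < T := by linarith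
  have hL : 0 < Real.log T := Real.log_pos (by linarith)
  have hpi3 := Real.pi_gt_three
  have hθ₂1 : ((1 : ℕ) : ℝ) ≤ T ^ θ₂ := by rw [Nat.cast_one]; exact Real.one_le_rpow (by linarith) hθ₂0.le
  have hone := (hSA 1 hθ₂1 (fun _ => 1)).2.2
  have hN21 : N2 1 (fun _ => (1 : ℂ)) = 1 := by simp [N2]
  have hdp1 : ∀ t : ℝ, dp 1 (fun _ => (1 : ℂ)) t = 1 := by intro t; simp [dp]
  simp only [hN21, hdp1, norm_one, one_pow, mul_one] at hone
  set L := Real.log T with hLdef
  set w := L / (2 * Real.pi) with hw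
  have hw0 : 0 < w := by positivity
  have hwL : w ≤ L / 6 := by
    rw [hw]
    apply div_le_div_of_nonneg_left hL.le (by norm_num) (by linarith)
  have h1 := (abs_le.1 hone).2
  have h2 : w * T ≤ L / 6 * T := by gcongr
  have hTL : 0 < T * L := by positivity
  linarith

/-- an approximation which varies slowly with the height -/
theorem approx_G (K : Set ℂ) (hK : IsCompact K) (hKs : ∀ z ∈ K, 1 / 2 < z.re ∧ z.re < 1) (D : ℝ) (hD : 0 ≤ D) (μ : ℝ)
    (hμ : 0 < μ) : ∃ Cg : ℝ, 0 ≤ Cg ∧ ∀ᶠ T : ℝ in atTop, ∀ Ψ : (ℂ → ℂ) → ℝ, Fun K D Ψ → ∃ G : ℝ → ℝ,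
      (∀ t t', |G t - G t'| ≤ Cg * |t - t'|) ∧ (∀ t t', |G t - G t'| ≤ 1) ∧
      ∑ s ∈ H370.Zf riemannZeta T (2 * T), (mz s : ℝ) * (Ψ (zv s.im) - G s.im) ^ 2 ≤ μ * (T * Real.log T) := by
  classical
  obtain ⟨ν, hν⟩ : ∃ ν : ℝ, ν = min 1 (μ / 2) := ⟨_, rfl⟩
  have hν0 : 0 < ν := by rw [hν]; positivity
  have hν1 : ν ≤ 1 := by rw [hν]; exact min_le_left _ _
  have hν2 : ν ≤ μ / 2 := by rw [hν]; exact min_le_right _ _
  obtain ⟨a, b, B, h1, h2, h3, hB, hKr⟩ := ZU.J_f.exists_rectV K hK (fun z hz => hKs z hz)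
  obtain ⟨N, hbad⟩ := few_bad a b B h1 h2 h3 hB (ν / (D + 1)) ν (by positivity) hν0
  have hK0 : ∀ z ∈ K, 0 ≤ z.re := fun z hz => by linarith [(hKs z hz).1]
  refine ⟨D * N * N, by positivity, ?_⟩
  filter_upwards [hbad, all_zeros, eventually_ge_atTop 16] with T hbad hall hT Ψ hΨ
  obtain ⟨-, hb2⟩ := hbad
  have hL : 0 < Real.log T := Real.log_pos (by linarith)
  have hTL : 0 < T * Real.log T := by positivity
  refine ⟨fun t => FTf N Ψ (ph N t), ?_, ?_, ?_⟩
  · intro t t'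
    have e1 := FTf_lip hK0 hΨ N (ph N t) (ph N t')
    rw [Real.dist_eq] at e1
    calc _ ≤ D * N * dist (ph N t) (ph N t') := e1
      _ ≤ D * N * (N * |t - t'|) := by
          gcongr
          exact ph_lip N t t'
      _ = _ := by ring
  · intro t t'
    have e1 : 0 ≤ FTf N Ψ (ph N t) := hΨ.nonneg _
    have e2 : FTf N Ψ (ph N t) ≤ 1 := hΨ.le_one _
    have e3 : 0 ≤ FTf N Ψ (ph N t') := hΨ.nonneg _
    have e4 : FTf N Ψ (ph N t') ≤ 1 := hΨ.le_one _
    rw [abs_le]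
    constructor <;> linarith
  · have hnb : ∀ t : ℝ, ¬ Bad a b B (ν / (D + 1)) N t → |Ψ (zv t) - FTf N Ψ (ph N t)| ≤ ν := by
      intro t ht
      have h5 : |Ψ (zv t) - FTf N Ψ (ph N t)| ≤ D * (ν / (D + 1)) := by
        apply hΨ.lip _ _ _ (by positivity)
        intro z hz
        unfold Bad at ht
        push Not at ht
        have h6 := ht z (hKr hz)
        unfold E at h6
        rw [FT_ph]
        exact h6.le
      refine h5.trans ?_
      rw [mul_div_assoc', div_le_iff₀ (by positivity)]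
      nlinarith
    have hb : ∀ t : ℝ, |Ψ (zv t) - FTf N Ψ (ph N t)| ≤ 1 := by
      intro t
      have e1 : 0 ≤ FTf N Ψ (ph N t) := hΨ.nonneg _
      have e2 : FTf N Ψ (ph N t) ≤ 1 := hΨ.le_one _
      rw [abs_le]
      constructor <;> linarith [hΨ.nonneg (zv t), hΨ.le_one (zv t)]
    calc _ ≤ ∑ s ∈ H370.Zf riemannZeta T (2 * T), (ν * (mz s : ℝ) +
          (if Bad a b B (ν / (D + 1)) N s.im then (mz s : ℝ) else 0)) := by
          refine Finset.sum_le_sum fun s _ => ?_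
          have hm : (0 : ℝ) ≤ mz s := Nat.cast_nonneg _
          split_ifs with hbd
          · have e1 : (Ψ (zv s.im) - FTf N Ψ (ph N s.im)) ^ 2 ≤ 1 := by
              rw [← sq_abs]
              exact pow_le_one₀ (abs_nonneg _) (hb _)
            have e2 := mul_le_mul_of_nonneg_left e1 hm
            have e3 : 0 ≤ ν * (mz s : ℝ) := by positivity
            linarith
          · have e1 : (Ψ (zv s.im) - FTf N Ψ (ph N s.im)) ^ 2 ≤ ν := by
              rw [← sq_abs]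
              calc |Ψ (zv s.im) - FTf N Ψ (ph N s.im)| ^ 2 ≤ ν ^ 2 := pow_le_pow_left₀ (abs_nonneg _) (hnb _ hbd) 2
                _ ≤ ν := by nlinarith
            have e2 := mul_le_mul_of_nonneg_left e1 hm
            linarith
      _ = ν * ∑ s ∈ H370.Zf riemannZeta T (2 * T), (mz s : ℝ) +
            ∑ s ∈ (H370.Zf riemannZeta T (2 * T)).filter (fun s => Bad a b B (ν / (D + 1)) N s.im), (mz s : ℝ) := by
          rw [Finset.sum_add_distrib, Finset.sum_filter, Finset.mul_sum]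
      _ ≤ μ / 2 * (T * Real.log T) + μ / 2 * (T * Real.log T) := by
          have e1 : ν * ∑ s ∈ H370.Zf riemannZeta T (2 * T), (mz s : ℝ) ≤ μ / 2 * (T * Real.log T) := by gcongr
          have e2 : ν * T * Real.log T ≤ μ / 2 * (T * Real.log T) := by
            rw [mul_assoc]; gcongr
          exact add_le_add e1 ((show _ ≤ _ from hb2).trans e2)
      _ = _ := by ring

/-- the product of two functionals -/
theorem Fun.mul {K : Set ℂ} {D : ℝ} {Φ Ψ : (ℂ → ℂ) → ℝ} (hΦ : Fun K D Φ) (hΨ : Fun K D Ψ) :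
    Fun K (2 * D) (fun f => Φ f * Ψ f) := by
  constructor
  · intro f g c hc h
    have h1 := hΦ.lip f g c hc h
    have h2 := hΨ.lip f g c hc h
    have e : Φ f * Ψ f - Φ g * Ψ g = Φ f * (Ψ f - Ψ g) + Ψ g * (Φ f - Φ g) := by ring
    rw [e]
    refine (abs_add_le _ _).trans ?_
    rw [abs_mul, abs_mul, abs_of_nonneg (hΦ.nonneg f), abs_of_nonneg (hΨ.nonneg g)]
    have h3 := mul_le_mul (hΦ.le_one f) h2 (abs_nonneg _) zero_le_one
    have h4 := mul_le_mul (hΨ.le_one g) h1 (abs_nonneg _) zero_le_one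
    linarith
  · intro f
    exact mul_nonneg (hΦ.nonneg f) (hΨ.nonneg f)
  · intro f
    exact mul_le_one₀ (hΦ.le_one f) (hΨ.nonneg f) (hΨ.le_one f)

/-- **two functionals** -/
theorem pair2 (hRH : RHz) {R : ℝ → ℝ} {D₀ M lam : ℝ} (hR : Tst R D₀ M) (hlam : 0 < lam) (hlam1 : lam < 1)
    (K : Set ℂ) (hK : IsCompact K) (hKs : ∀ z ∈ K, 1 / 2 < z.re ∧ z.re < 1) (D : ℝ) (hD : 0 ≤ D) (ε : ℝ) (hε : 0 < ε) :
    ∀ᶠ T : ℝ in atTop, ∀ Φ Ψ : (ℂ → ℂ) → ℝ, Fun K D Φ → Fun K D Ψ →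
      |∑ s ∈ H370.Zf riemannZeta T (2 * T), ∑ s' ∈ H370.Zf riemannZeta T (2 * T),
          (mz s : ℝ) * (mz s' : ℝ) * (Φ (zv s.im) * Ψ (zv s'.im) * fR R (lam * Real.log T * (s.im - s'.im))) -
        kap R lam * (Real.log T / (2 * Real.pi)) * (∫ t in T..(2 * T), Φ (zv t) * Ψ (zv t))| ≤ ε * T * Real.log T := by
  classical
  obtain ⟨δ, C₂, hδ, hC₂, hSS⟩ := SS_two
  obtain ⟨Cf, hCf, hfar⟩ := far
  have hM := (Pool.Agent.Q16.UM3.fR_bd hR hlam hlam1.le 0).1
  obtain ⟨c, hc⟩ : ∃ c : ℝ, c = 2 * (M / lam ^ 2) + 1 := ⟨_, rfl⟩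
  have hc0 : 0 < c := by rw [hc]; positivity
  -- parameters
  obtain ⟨l, hl⟩ : ∃ l : ℝ, l = ε / (8 * c * (C₂ + 1)) := ⟨_, rfl⟩
  have hl0 : 0 < l := by rw [hl]; positivity
  have hl1 : c * (l * C₂) ≤ ε / 8 := by
    have : c * (l * C₂) = ε / 8 * (C₂ / (C₂ + 1)) := by rw [hl]; field_simp
    rw [this]
    have h2 : C₂ / (C₂ + 1) ≤ 1 := by rw [div_le_one (by positivity)]; linarith
    nlinarith
  obtain ⟨μ, hμ⟩ : ∃ μ : ℝ, μ = ε * l / (8 * c) := ⟨_, rfl⟩
  have hμ0 : 0 < μ := by rw [hμ]; positivity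
  have hμ1 : c * (μ / l) = ε / 8 := by rw [hμ]; field_simp
  obtain ⟨Cg, hCg, hG⟩ := approx_G K hK hKs D hD μ hμ0
  obtain ⟨v, hv⟩ : ∃ v : ℝ, v = min 1 (ε / (8 * (c * (Cg + 1) * (1 + C₂)))) := ⟨_, rfl⟩
  have hv0 : 0 < v := by rw [hv]; positivity
  have hv1 : v ≤ 1 := by rw [hv]; exact min_le_left _ _
  have hv2 : Cg * v * (c * (1 + C₂)) ≤ ε / 8 := by
    have h2 : v ≤ ε / (8 * (c * (Cg + 1) * (1 + C₂))) := by rw [hv]; exact min_le_right _ _
    calc Cg * v * (c * (1 + C₂)) ≤ (Cg + 1) * (ε / (8 * (c * (Cg + 1) * (1 + C₂)))) * (c * (1 + C₂)) := by gcongr; linarith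
      _ = ε / 8 := by field_simp
  have hlog : ∀ᶠ T : ℝ in atTop, 8 * c * Cf / (ε * v ^ 2) + 1 ≤ Real.log T :=
    Real.tendsto_log_atTop.eventually_ge_atTop _
  filter_upwards [pair1 hRH hR hlam hlam1 K hK hKs (2 * D) (by positivity) (ε / 4) (by positivity), hSS, hG, all_zeros, hlog,
    eventually_ge_atTop 16] with T hP hSS hG hall hlog hT Φ Ψ hΦ hΨ
  have hT0 : 0 < T := by linarith
  have hL1 : 1 ≤ Real.log T := by
    have : 0 ≤ 8 * c * Cf / (ε * v ^ 2) := by positivity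
    linarith
  have hlog2 : c * (Cf / (Real.log T * v ^ 2)) ≤ ε / 8 := by
    have h2 : 8 * c * Cf / (ε * v ^ 2) ≤ Real.log T := by linarith
    rw [div_le_iff₀ (by positivity)] at h2
    rw [mul_div_assoc', div_le_iff₀ (by positivity)]
    linarith
  set L := Real.log T with hLdef
  have hL0 : 0 < L := by linarith
  set Z := H370.Zf riemannZeta T (2 * T) with hZ
  obtain ⟨G, hG1, hG2, hG3⟩ := hG Ψ hΨ
  have hP2 := hP _ (hΦ.mul hΨ)
  set e : ℂ → ℝ := fun s => |Ψ (zv s.im) - G s.im| with he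
  have he0 : ∀ s, 0 ≤ e s := fun s => abs_nonneg _
  set F : ℂ → ℂ → ℝ := fun s s' => |fR R (lam * L * (s.im - s'.im))| with hF
  have hF0 : ∀ s s', 0 ≤ F s s' := fun s s' => abs_nonneg _
  have hFs : ∀ s s', F s s' = F s' s := by
    intro s s'
    simp only [hF]
    rw [← Pool.Agent.Q97.UM.fR_even]
    congr 2
    ring
  have hAg : ∀ s, ∑ s' ∈ Z, (mz s' : ℝ) * F s s' ≤ c * SS δ T s.im := by
    intro s
    have h1 := AgF_le hR hlam hlam1.le hT hδ.le s
    have h2 : 0 ≤ SS δ T s.im := by unfold SS; positivity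
    have h3 : 2 * (M / lam ^ 2) * SS δ T s.im ≤ c * SS δ T s.im := by
      apply mul_le_mul_of_nonneg_right _ h2
      rw [hc]; linarith
    exact (show _ ≤ _ from h1).trans h3
  have hS0 : ∀ s : ℂ, 0 ≤ SS δ T s.im := by intro s; unfold SS; positivity
  -- first error
  have e1 : ∑ s ∈ Z, ∑ s' ∈ Z, (mz s : ℝ) * (mz s' : ℝ) * (e s * F s s') ≤ ε / 8 * (T * L) := by
    calc _ = ∑ s ∈ Z, (mz s : ℝ) * (e s * ∑ s' ∈ Z, (mz s' : ℝ) * F s s') := by
          refine Finset.sum_congr rfl fun s _ => ?_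
          rw [Finset.mul_sum, Finset.mul_sum]
          refine Finset.sum_congr rfl fun s' _ => ?_
          ring
      _ ≤ ∑ s ∈ Z, (c / 2 * l * ((mz s : ℝ) * SS δ T s.im ^ 2) + c / 2 / l * ((mz s : ℝ) * (Ψ (zv s.im) - G s.im) ^ 2)) := by
          refine Finset.sum_le_sum fun s _ => ?_
          have hm : (0 : ℝ) ≤ mz s := Nat.cast_nonneg _
          have h1 : e s * ∑ s' ∈ Z, (mz s' : ℝ) * F s s' ≤ e s * (c * SS δ T s.im) :=
            mul_le_mul_of_nonneg_left (hAg s) (he0 s)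
          have h2 : e s * (c * SS δ T s.im) ≤ c / 2 * l * SS δ T s.im ^ 2 + c / 2 / l * e s ^ 2 := by
            have h3 : 0 ≤ c / 2 * l * (SS δ T s.im - e s / l) ^ 2 := by positivity
            have h4 : c / 2 * l * (SS δ T s.im - e s / l) ^ 2 =
                c / 2 * l * SS δ T s.im ^ 2 - e s * (c * SS δ T s.im) + c / 2 / l * e s ^ 2 := by
              field_simp
              ring
            linarith
          have h5 : e s ^ 2 = (Ψ (zv s.im) - G s.im) ^ 2 := by rw [he]; exact sq_abs _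
          rw [h5] at h2
          calc (mz s : ℝ) * (e s * ∑ s' ∈ Z, (mz s' : ℝ) * F s s') ≤
              (mz s : ℝ) * (c / 2 * l * SS δ T s.im ^ 2 + c / 2 / l * (Ψ (zv s.im) - G s.im) ^ 2) :=
                mul_le_mul_of_nonneg_left (h1.trans h2) hm
            _ = _ := by ring
      _ = c / 2 * l * ∑ s ∈ Z, (mz s : ℝ) * SS δ T s.im ^ 2 +
            c / 2 / l * ∑ s ∈ Z, (mz s : ℝ) * (Ψ (zv s.im) - G s.im) ^ 2 := by
          rw [Finset.sum_add_distrib, Finset.mul_sum, Finset.mul_sum]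
      _ ≤ c / 2 * l * (C₂ * T * L) + c / 2 / l * (μ * (T * L)) := by gcongr
      _ = (c * (l * C₂) / 2 + c * (μ / l) / 2) * (T * L) := by field_simp
      _ ≤ ε / 8 * (T * L) := by
          apply mul_le_mul_of_nonneg_right _ (by positivity)
          rw [hμ1]
          linarith
  have e2 : ∑ s ∈ Z, ∑ s' ∈ Z, (mz s : ℝ) * (mz s' : ℝ) * (e s' * F s s') ≤ ε / 8 * (T * L) := by
    rw [Finset.sum_comm]
    refine le_trans (le_of_eq ?_) e1
    refine Finset.sum_congr rfl fun s _ => Finset.sum_congr rfl fun s' _ => ?_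
    rw [hFs s' s]
    ring
  -- second error
  have e3 : ∑ s ∈ Z, ∑ s' ∈ Z, (mz s : ℝ) * (mz s' : ℝ) * (|G s'.im - G s.im| * F s s') ≤ ε / 4 * (T * L) := by
    calc _ = ∑ s ∈ Z, (mz s : ℝ) * ∑ s' ∈ Z, (mz s' : ℝ) * (|G s'.im - G s.im| * F s s') := by
          refine Finset.sum_congr rfl fun s _ => ?_
          rw [Finset.mul_sum]
          refine Finset.sum_congr rfl fun s' _ => ?_
          ring
      _ ≤ ∑ s ∈ Z, (mz s : ℝ) * (Cg * v * (c * (1 + SS δ T s.im ^ 2)) + ε / 8) := by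
          refine Finset.sum_le_sum fun s _ => ?_
          apply mul_le_mul_of_nonneg_left _ (Nat.cast_nonneg _)
          calc _ ≤ ∑ s' ∈ Z, (Cg * v * ((mz s' : ℝ) * F s s') +
                c * ((mz s' : ℝ) * (if v < |s'.im - s.im| then 1 / (1 + L * |s'.im - s.im|) ^ 2 else 0))) := by
                refine Finset.sum_le_sum fun s' _ => ?_
                have hm : (0 : ℝ) ≤ mz s' := Nat.cast_nonneg _
                split_ifs with h1
                · have h2 : |G s'.im - G s.im| * F s s' ≤ 1 * F s s' :=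
                    mul_le_mul_of_nonneg_right (hG2 _ _) (hF0 _ _)
                  have h3 : F s s' ≤ c * (1 / (1 + L * |s'.im - s.im|) ^ 2) := by
                    have h4 := ker_le hR hlam hlam1.le (L * (s.im - s'.im))
                    rw [abs_mul, abs_of_nonneg hL0.le, abs_sub_comm s.im s'.im] at h4
                    simp only [hF]
                    rw [mul_assoc]
                    refine h4.trans ?_
                    apply mul_le_mul_of_nonneg_right _ (by positivity)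
                    rw [hc]; linarith
                  have h5 : (mz s' : ℝ) * (|G s'.im - G s.im| * F s s') ≤
                      (mz s' : ℝ) * (c * (1 / (1 + L * |s'.im - s.im|) ^ 2)) := by
                    apply mul_le_mul_of_nonneg_left _ hm
                    linarith
                  have h6 : 0 ≤ Cg * v * ((mz s' : ℝ) * F s s') := by
                    have := hF0 s s'
                    positivity
                  calc _ ≤ (mz s' : ℝ) * (c * (1 / (1 + L * |s'.im - s.im|) ^ 2)) := h5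
                    _ = c * ((mz s' : ℝ) * (1 / (1 + L * |s'.im - s.im|) ^ 2)) := by ring
                    _ ≤ _ := by linarith
                · have h2 : |G s'.im - G s.im| ≤ Cg * v := (hG1 _ _).trans (by gcongr; exact not_lt.1 h1)
                  have h3 : (mz s' : ℝ) * (|G s'.im - G s.im| * F s s') ≤ (mz s' : ℝ) * (Cg * v * F s s') := by
                    apply mul_le_mul_of_nonneg_left _ hm
                    exact mul_le_mul_of_nonneg_right h2 (hF0 _ _)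
                  calc _ ≤ (mz s' : ℝ) * (Cg * v * F s s') := h3
                    _ = _ := by ring
            _ = Cg * v * ∑ s' ∈ Z, (mz s' : ℝ) * F s s' + c * ∑ s' ∈ Z, (mz s' : ℝ) *
                (if v < |s'.im - s.im| then 1 / (1 + L * |s'.im - s.im|) ^ 2 else 0) := by
                rw [Finset.sum_add_distrib, Finset.mul_sum, Finset.mul_sum]
            _ ≤ Cg * v * (c * (1 + SS δ T s.im ^ 2)) + ε / 8 := by
                have h1 : SS δ T s.im ≤ 1 + SS δ T s.im ^ 2 := by nlinarith [sq_nonneg (SS δ T s.im - 1)]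
                have h2 : ∑ s' ∈ Z, (mz s' : ℝ) * F s s' ≤ c * (1 + SS δ T s.im ^ 2) :=
                  (hAg s).trans (by gcongr)
                have h3 := hfar T hT hL1 v hv0 hv1 s.im
                have h4 : c * ∑ s' ∈ Z, (mz s' : ℝ) * (if v < |s'.im - s.im| then 1 / (1 + L * |s'.im - s.im|) ^ 2 else 0) ≤
                    c * (Cf / (L * v ^ 2)) := by
                  apply mul_le_mul_of_nonneg_left h3 hc0.le
                have h5 : Cg * v * ∑ s' ∈ Z, (mz s' : ℝ) * F s s' ≤ Cg * v * (c * (1 + SS δ T s.im ^ 2)) := by gcongr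
                linarith
      _ = Cg * v * c * ∑ s ∈ Z, (mz s : ℝ) * SS δ T s.im ^ 2 + (Cg * v * c + ε / 8) * ∑ s ∈ Z, (mz s : ℝ) := by
          rw [Finset.mul_sum, Finset.mul_sum, ← Finset.sum_add_distrib]
          refine Finset.sum_congr rfl fun s _ => ?_
          ring
      _ ≤ Cg * v * c * (C₂ * T * L) + (Cg * v * c + ε / 8) * (T * L) := by gcongr
      _ = (Cg * v * (c * (1 + C₂)) + ε / 8) * (T * L) := by ring
      _ ≤ (ε / 8 + ε / 8) * (T * L) := by gcongr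
      _ = _ := by ring
  -- the difference
  have hdiff : |∑ s ∈ Z, ∑ s' ∈ Z, (mz s : ℝ) * (mz s' : ℝ) * (Φ (zv s.im) * Ψ (zv s'.im) * fR R (lam * L * (s.im - s'.im))) -
      ∑ s ∈ Z, (mz s : ℝ) * (Wn R lam T s * (Φ (zv s.im) * Ψ (zv s.im)))| ≤ ε / 2 * (T * L) := by
    have h1 : ∑ s ∈ Z, (mz s : ℝ) * (Wn R lam T s * (Φ (zv s.im) * Ψ (zv s.im))) =
        ∑ s ∈ Z, ∑ s' ∈ Z, (mz s : ℝ) * (mz s' : ℝ) * (Φ (zv s.im) * Ψ (zv s.im) * fR R (lam * L * (s.im - s'.im))) := by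
      unfold Wn
      refine Finset.sum_congr rfl fun s _ => ?_
      rw [Finset.sum_mul, Finset.mul_sum]
      refine Finset.sum_congr rfl fun s' _ => ?_
      ring
    rw [h1, ← Finset.sum_sub_distrib]
    calc _ ≤ ∑ s ∈ Z, ∑ s' ∈ Z, ((mz s : ℝ) * (mz s' : ℝ) * (e s' * F s s') + (mz s : ℝ) * (mz s' : ℝ) * (e s * F s s') +
          (mz s : ℝ) * (mz s' : ℝ) * (|G s'.im - G s.im| * F s s')) := by
          refine (Finset.abs_sum_le_sum_abs _ _).trans (Finset.sum_le_sum fun s _ => ?_)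
          rw [← Finset.sum_sub_distrib]
          refine (Finset.abs_sum_le_sum_abs _ _).trans (Finset.sum_le_sum fun s' _ => ?_)
          have hmm : (0 : ℝ) ≤ (mz s : ℝ) * (mz s' : ℝ) := by positivity
          have h2 : (mz s : ℝ) * (mz s' : ℝ) * (Φ (zv s.im) * Ψ (zv s'.im) * fR R (lam * L * (s.im - s'.im))) -
              (mz s : ℝ) * (mz s' : ℝ) * (Φ (zv s.im) * Ψ (zv s.im) * fR R (lam * L * (s.im - s'.im))) =
              (mz s : ℝ) * (mz s' : ℝ) * (Φ (zv s.im) * (Ψ (zv s'.im) - Ψ (zv s.im)) * fR R (lam * L * (s.im - s'.im))) := by ring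
          rw [h2, abs_mul, abs_of_nonneg hmm, abs_mul, abs_mul, abs_of_nonneg (hΦ.nonneg _)]
          have h3 : |Ψ (zv s'.im) - Ψ (zv s.im)| ≤ e s' + e s + |G s'.im - G s.im| := by
            have h4 : Ψ (zv s'.im) - Ψ (zv s.im) = (Ψ (zv s'.im) - G s'.im) + -(Ψ (zv s.im) - G s.im) + (G s'.im - G s.im) := by ring
            rw [h4]
            refine (abs_add_le _ _).trans (add_le_add ((abs_add_le _ _).trans ?_) le_rfl)
            rw [abs_neg]
          have h5 : Φ (zv s.im) * |Ψ (zv s'.im) - Ψ (zv s.im)| ≤ e s' + e s + |G s'.im - G s.im| := by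
            calc _ ≤ 1 * |Ψ (zv s'.im) - Ψ (zv s.im)| := mul_le_mul_of_nonneg_right (hΦ.le_one _) (abs_nonneg _)
              _ ≤ _ := by rw [one_mul]; exact h3
          calc (mz s : ℝ) * (mz s' : ℝ) * (Φ (zv s.im) * |Ψ (zv s'.im) - Ψ (zv s.im)| * |fR R (lam * L * (s.im - s'.im))|) ≤
              (mz s : ℝ) * (mz s' : ℝ) * ((e s' + e s + |G s'.im - G s.im|) * F s s') := by
                apply mul_le_mul_of_nonneg_left _ hmm
                exact mul_le_mul_of_nonneg_right h5 (abs_nonneg _)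
            _ = _ := by ring
      _ = ∑ s ∈ Z, ∑ s' ∈ Z, (mz s : ℝ) * (mz s' : ℝ) * (e s' * F s s') +
          ∑ s ∈ Z, ∑ s' ∈ Z, (mz s : ℝ) * (mz s' : ℝ) * (e s * F s s') +
          ∑ s ∈ Z, ∑ s' ∈ Z, (mz s : ℝ) * (mz s' : ℝ) * (|G s'.im - G s.im| * F s s') := by
          rw [← Finset.sum_add_distrib, ← Finset.sum_add_distrib]
          refine Finset.sum_congr rfl fun s _ => ?_
          rw [← Finset.sum_add_distrib, ← Finset.sum_add_distrib]
      _ ≤ ε / 8 * (T * L) + ε / 8 * (T * L) + ε / 4 * (T * L) := add_le_add (add_le_add e2 e1) e3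
      _ = _ := by ring
  have hfin : ε * T * L = ε * (T * L) := by ring
  have hTL : 0 < ε * (T * L) := by positivity
  rw [abs_le] at hdiff hP2 ⊢
  rw [hfin]
  constructor <;> linarith [hdiff.1, hdiff.2, hP2.1, hP2.2]

end Pool.Agent.H510.PC
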