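import Pool.Agent.H510.UZ.Val

/-!
Transfer of weighted sums over the zeros to functionals of the shape of zeta to the right of the critical line.
-/

set_option autoImplicit false

open Complex Filter Topology MeasureTheory
open Pool.Agent.Q97.UM (dp N2 ZI mz)

namespace Pool.Agent.H510.PC

open Pool.Agent.H510.UZ

/-- the shape of zeta at the height `t` -/
noncomputable def zv (t : ℝ) : ℂ → ℂ := fun z => riemannZeta (z + t * I)

/-- functionals with values in `[0, 1]`, Lipschitz with respect to the maximum norm on `K` -/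
structure Fun (K : Set ℂ) (D : ℝ) (Φ : (ℂ → ℂ) → ℝ) : Prop where
  lip : ∀ (f g : ℂ → ℂ) (c : ℝ), 0 ≤ c → (∀ z ∈ K, ‖f z - g z‖ ≤ c) → |Φ f - Φ g| ≤ D * c
  nonneg : ∀ f, 0 ≤ Φ f
  le_one : ∀ f, Φ f ≤ 1

theorem val_cont {K : Set ℂ} (hK : IsCompact K) (hKs : ∀ z ∈ K, z.re < 1) {D : ℝ} {Φ : (ℂ → ℂ) → ℝ} (hD : 0 ≤ D)
    (hΦ : Fun K D Φ) : Continuous fun t : ℝ => Φ (zv t) := by
  haveI : CompactSpace K := isCompact_iff_compactSpace.1 hK
  have hc : Continuous fun p : ℝ × K => riemannZeta ((p.2 : ℂ) + p.1 * I) := by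
    rw [continuous_iff_continuousAt]
    rintro ⟨t, z⟩
    have h1 : ((z : ℂ) + t * I) ≠ 1 := by
      intro h
      have h2 := congrArg Complex.re h
      have h3 := hKs z z.2
      simp at h2
      linarith
    have h4 : ContinuousAt riemannZeta ((z : ℂ) + t * I) := (differentiableAt_riemannZeta h1).continuousAt
    exact ContinuousAt.comp (f := fun p : ℝ × K => (p.2 : ℂ) + p.1 * I) (x := (t, z)) h4 (by fun_prop)
  set G : C(ℝ, C(K, ℂ)) := (⟨_, hc⟩ : C(ℝ × K, ℂ)).curry with hG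
  rw [continuous_iff_continuousAt]
  intro t0
  rw [Metric.continuousAt_iff]
  intro ε hε
  have h1 : ContinuousAt G t0 := G.continuous.continuousAt
  rw [Metric.continuousAt_iff] at h1
  obtain ⟨r, hr, h⟩ := h1 (ε / (D + 1)) (by positivity)
  refine ⟨r, hr, ?_⟩
  intro t ht
  have h2 := h ht
  have h3 : |Φ (zv t) - Φ (zv t0)| ≤ D * dist (G t) (G t0) := by
    apply hΦ.lip _ _ _ dist_nonneg
    intro z hz
    have := ContinuousMap.dist_apply_le_dist (f := G t) (g := G t0) ⟨z, hz⟩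
    rw [dist_eq_norm] at this
    exact this
  rw [Real.dist_eq]
  calc |Φ (zv t) - Φ (zv t0)| ≤ D * dist (G t) (G t0) := h3
    _ ≤ D * (ε / (D + 1)) := by gcongr
    _ < ε := by
      rw [mul_div_assoc', div_lt_iff₀ (by positivity)]
      nlinarith

theorem sqrt_close (a b : ℝ) (ha : 0 ≤ a) (hb : 0 ≤ b) : |Real.sqrt a - Real.sqrt b| ≤ Real.sqrt |a - b| := by
  have key : ∀ x y : ℝ, 0 ≤ x → 0 ≤ y → Real.sqrt x - Real.sqrt y ≤ Real.sqrt |x - y| := by
    intro x y hx hy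
    have h1 : Real.sqrt x ≤ Real.sqrt y + Real.sqrt |x - y| := by
      apply Real.sqrt_le_iff.2
      refine ⟨by positivity, ?_⟩
      have h2 := Real.sq_sqrt hy
      have h3 := Real.sq_sqrt (abs_nonneg (x - y))
      have h4 := le_abs_self (x - y)
      nlinarith [mul_nonneg (Real.sqrt_nonneg y) (Real.sqrt_nonneg |x - y|)]
    linarith
  rw [abs_le]
  constructor
  · have := key b a hb ha
    rw [abs_sub_comm] at this
    linarith
  · exact key a b ha hb

/-- a finite list of Dirichlet polynomials for the square roots of all Lipschitz functions -/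
theorem net2 (N : ℕ) (L : ℝ) (hL : 0 ≤ L) (η : ℝ) (hη : 0 < η) : ∃ 𝓑 : Finset (ℕ × (ℕ → ℂ)), ∀ g ∈ Lip N L,
    ∃ p ∈ 𝓑, ∀ t : ℝ, |Real.sqrt (g (ph N t)) - ‖dp p.1 p.2 t‖| ≤ η := by
  classical
  have hc := (Lip_compact N L hL).totallyBounded
  rw [Metric.totallyBounded_iff] at hc
  obtain ⟨Y, hY, hcov⟩ := hc ((η / 2) ^ 2) (by positivity)
  have happ : ∀ f : BoundedContinuousFunction (Tor N) ℝ, ∃ p : ℕ × (ℕ → ℂ),
      ∀ t : ℝ, |Real.sqrt (max (f (ph N t)) 0) - ‖dp p.1 p.2 t‖| < η / 2 := by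
    intro f
    obtain ⟨M, b, h⟩ := approx N ⟨fun θ => Real.sqrt (max (f θ) 0), by fun_prop⟩ (fun θ => Real.sqrt_nonneg _)
      (η / 2) (by positivity)
    exact ⟨(M, b), h⟩
  choose P hP using happ
  refine ⟨hY.toFinset.image P, ?_⟩
  intro g hg
  have h1 := hcov hg
  rw [Set.mem_iUnion₂] at h1
  obtain ⟨f, hf, hball⟩ := h1
  refine ⟨P f, Finset.mem_image_of_mem _ (hY.mem_toFinset.2 hf), ?_⟩
  intro t
  have h2 := hP f t
  have hg0 : 0 ≤ g (ph N t) := (hg.2 _).1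
  have h3 : |Real.sqrt (g (ph N t)) - Real.sqrt (max (f (ph N t)) 0)| ≤ η / 2 := by
    have h4 : dist (g (ph N t)) (f (ph N t)) ≤ dist g f := BoundedContinuousFunction.dist_coe_le_dist _
    rw [Metric.mem_ball] at hball
    have h5 : |g (ph N t) - f (ph N t)| ≤ (η / 2) ^ 2 := by
      rw [Real.dist_eq] at h4
      exact h4.trans hball.le
    have h6 : |g (ph N t) - max (f (ph N t)) 0| ≤ (η / 2) ^ 2 := by
      have h7 : g (ph N t) = max (g (ph N t)) 0 := (max_eq_left hg0).symm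
      calc |g (ph N t) - max (f (ph N t)) 0| = |max (g (ph N t)) 0 - max (f (ph N t)) 0| := by rw [← h7]
        _ ≤ |g (ph N t) - f (ph N t)| := abs_max_sub_max_le_abs _ _ _
        _ ≤ _ := h5
    refine (sqrt_close _ _ hg0 (le_max_right _ _)).trans ?_
    rw [Real.sqrt_le_iff]
    exact ⟨by positivity, h6⟩
  calc |Real.sqrt (g (ph N t)) - ‖dp (P f).1 (P f).2 t‖| =
      |(Real.sqrt (g (ph N t)) - Real.sqrt (max (f (ph N t)) 0)) +
        (Real.sqrt (max (f (ph N t)) 0) - ‖dp (P f).1 (P f).2 t‖)| := by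
        congr 1; ring
    _ ≤ |Real.sqrt (g (ph N t)) - Real.sqrt (max (f (ph N t)) 0)| +
        |Real.sqrt (max (f (ph N t)) 0) - ‖dp (P f).1 (P f).2 t‖| := abs_add_le _ _
    _ ≤ η / 2 + η / 2 := add_le_add h3 h2.le
    _ = η := by ring

/-- a functional on the torus -/
noncomputable def FTf (N : ℕ) (Φ : (ℂ → ℂ) → ℝ) (θ : Tor N) : ℝ := Φ (fun z => FT N θ z)

theorem FTf_lip {K : Set ℂ} (hKs : ∀ z ∈ K, 0 ≤ z.re) {D : ℝ} {Φ : (ℂ → ℂ) → ℝ} (hΦ : Fun K D Φ)
    (N : ℕ) (θ θ' : Tor N) : dist (FTf N Φ θ) (FTf N Φ θ') ≤ (D * N) * dist θ θ' := by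
  rw [Real.dist_eq]
  have := hΦ.lip (fun z => FT N θ z) (fun z => FT N θ' z) (N * dist θ θ') (by positivity)
    (fun z hz => FT_lip N θ θ' z (hKs z hz))
  calc |FTf N Φ θ - FTf N Φ θ'| ≤ D * (N * dist θ θ') := this
    _ = _ := by ring

theorem FTf_cont {K : Set ℂ} (hKs : ∀ z ∈ K, 0 ≤ z.re) {D : ℝ} (hD : 0 ≤ D) {Φ : (ℂ → ℂ) → ℝ} (hΦ : Fun K D Φ)
    (N : ℕ) : Continuous (FTf N Φ) := by
  have h : LipschitzWith ⟨D * N, by positivity⟩ (FTf N Φ) := LipschitzWith.of_dist_le_mul fun θ θ' => FTf_lip hKs hΦ N θ θ'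
  exact h.continuous

/-- integrals of bounded functions -/
theorem int_le (c : ℝ → ℝ) (hc : Continuous c) (h1 : ∀ t, c t ≤ 1) (μ : ℝ) (hμ : 0 ≤ μ) (T : ℝ) (hT : 0 ≤ T) :
    ∫ t in T..(2 * T), c t ≤ μ * T + V T (fun t => μ < c t) := by
  set A : Set ℝ := {t : ℝ | t ∈ Set.Icc T (2 * T) ∧ μ < c t} with hA
  have hAm : MeasurableSet A := measurableSet_Icc.inter (measurableSet_lt measurable_const hc.measurable)
  have hAf : volume A ≠ ⊤ := V_fin T _
  rw [intervalIntegral.integral_of_le (by linarith), ← integral_Icc_eq_integral_Ioc]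
  calc ∫ t in Set.Icc T (2 * T), c t ≤ ∫ t in Set.Icc T (2 * T), (μ + A.indicator (fun _ => (1 : ℝ)) t) := by
        apply setIntegral_mono_on hc.continuousOn.integrableOn_Icc _ measurableSet_Icc
        · intro t ht
          by_cases hA2 : t ∈ A
          · rw [Set.indicator_of_mem hA2]
            linarith [h1 t]
          · rw [Set.indicator_of_notMem hA2]
            have : ¬ μ < c t := fun h => hA2 ⟨ht, h⟩
            linarith
        · refine Integrable.add (integrableOn_const measure_Icc_lt_top.ne) ?_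
          exact ((integrable_indicator_iff hAm).2 (integrableOn_const hAf)).integrableOn
    _ = μ * T + V T (fun t => μ < c t) := by
        have i1 : Integrable (fun _ : ℝ => μ) (volume.restrict (Set.Icc T (2 * T))) :=
          integrableOn_const measure_Icc_lt_top.ne
        have i2 : Integrable (fun t => A.indicator (fun _ => (1 : ℝ)) t) (volume.restrict (Set.Icc T (2 * T))) :=
          ((integrable_indicator_iff hAm).2 (integrableOn_const hAf)).integrableOn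
        rw [integral_add i1 i2]
        congr 1
        · rw [setIntegral_const, smul_eq_mul]
          have : (volume.real (Set.Icc T (2 * T))) = T := by
            rw [Real.volume_real_Icc, max_eq_left (by linarith)]
            ring
          rw [this]; ring
        · rw [setIntegral_indicator hAm]
          have e2 : Set.Icc T (2 * T) ∩ A = A := Set.inter_eq_right.2 fun t ht => ht.1
          rw [e2, setIntegral_const, smul_eq_mul, mul_one]
          rfl

open Classical in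
/-- the transfer, lower bounds for signed weights -/
theorem low_transfer (κ : ℝ) (W : ℝ → ℂ → ℝ)
    (H1 : ∀ ε : ℝ, 0 < ε → ∃ θ : ℝ, 0 < θ ∧ ∀ᶠ T : ℝ in atTop, ∀ N : ℕ, (N : ℝ) ≤ T ^ θ → ∀ b : ℕ → ℂ,
      κ * (Real.log T / (2 * Real.pi)) * (T * N2 N b) - ε * Real.log T * (T * N2 N b) ≤
        ∑ s ∈ H370.Zf riemannZeta T (2 * T), (mz s : ℝ) * (W T s * ‖dp N b s.im‖ ^ 2))
    (H2 : ∃ C : ℝ, ∀ᶠ T : ℝ in atTop, ∑ s ∈ H370.Zf riemannZeta T (2 * T), (mz s : ℝ) * W T s ^ 2 ≤ C * T * Real.log T) :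
    ∀ K : Set ℂ, IsCompact K → (∀ z ∈ K, 1 / 2 < z.re ∧ z.re < 1) → ∀ D : ℝ, 0 ≤ D → ∀ ε : ℝ, 0 < ε →
    ∀ᶠ T : ℝ in atTop, ∀ Φ : (ℂ → ℂ) → ℝ, Fun K D Φ →
      κ * (Real.log T / (2 * Real.pi)) * (∫ t in T..(2 * T), Φ (zv t)) - ε * T * Real.log T ≤
        ∑ s ∈ H370.Zf riemannZeta T (2 * T), (mz s : ℝ) * (W T s * Φ (zv s.im)) := by
  intro K hK hKs D hD ε hε
  obtain ⟨C₀, hC₀⟩ := H2
  set C := max C₀ 1 with hC
  have hC1 : 1 ≤ C := le_max_right _ _
  set lam := ε / (8 * C) with hlam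
  have hlam0 : 0 < lam := by positivity
  have hlamC : lam * C = ε / 8 := by rw [hlam]; field_simp
  set A := 1 / (4 * lam) with hA
  have hA0 : 0 < A := by positivity
  obtain ⟨μ, hμ⟩ : ∃ μ : ℝ, μ = min (1 / 64) (ε / (4 * (11 * A + 4 + 2 * |κ|))) := ⟨_, rfl⟩
  have hden : 0 < 11 * A + 4 + 2 * |κ| := by positivity
  have hμ0 : 0 < μ := by rw [hμ]; positivity
  have hμ1 : μ ≤ 1 / 64 := by rw [hμ]; exact min_le_left _ _
  have hμ2 : μ * (11 * A + 4 + 2 * |κ|) ≤ ε / 4 := by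
    have h1 : μ ≤ ε / (4 * (11 * A + 4 + 2 * |κ|)) := by rw [hμ]; exact min_le_right _ _
    calc μ * (11 * A + 4 + 2 * |κ|) ≤ ε / (4 * (11 * A + 4 + 2 * |κ|)) * (11 * A + 4 + 2 * |κ|) := by gcongr
      _ = ε / 4 := by field_simp
  obtain ⟨a, b, B, h1, h2, h3, hB, hKr⟩ := ZU.J_f.exists_rectV K hK (fun z hz => hKs z hz)
  obtain ⟨N, hbad⟩ := few_bad a b B h1 h2 h3 hB (μ / (D + 1)) μ (by positivity) hμ0
  have hK0 : ∀ z ∈ K, 0 ≤ z.re := fun z hz => by linarith [(hKs z hz).1]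
  have hK1 : ∀ z ∈ K, z.re < 1 := fun z hz => (hKs z hz).2
  obtain ⟨𝓑, h𝓑⟩ := net2 N (D * N) (by positivity) μ hμ0
  obtain ⟨θ, hθ0, hW1⟩ := H1 μ hμ0
  set θ₁ := min θ (1 / 40) with hθ₁
  have hθ₁0 : 0 < θ₁ := by positivity
  obtain ⟨θ₂, hθ₂0, -, hSA⟩ := Pool.Agent.Q97.UM.b_SAMP μ hμ0
  have hlen : ∀ᶠ T : ℝ in atTop, ∀ p ∈ 𝓑, ((p.1 : ℕ) : ℝ) ≤ T ^ θ₁ := by
    rw [Filter.eventually_all_finset]
    intro p _
    exact (tendsto_rpow_atTop hθ₁0).eventually_ge_atTop _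
  filter_upwards [hC₀, hbad, hW1, hlen, hSA, Pool.Agent.Q97.UM.mv_rel μ hμ0, eventually_ge_atTop 16] with
    T hC₀ hbad hW1 hlen hSA hMV hT Φ hΦ
  obtain ⟨hb1, hb2⟩ := hbad
  have hT0 : 0 < T := by linarith
  have hL : 0 < Real.log T := Real.log_pos (by linarith)
  have hpi3 := Real.pi_gt_three
  -- the functional on the torus
  have hgc := FTf_cont hK0 hD hΦ N
  set g : BoundedContinuousFunction (Tor N) ℝ := BoundedContinuousFunction.mkOfCompact ⟨FTf N Φ, hgc⟩ with hg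
  have hgl : g ∈ Lip N (D * N) := ⟨fun x y => FTf_lip hK0 hΦ N x y, fun x => ⟨hΦ.nonneg _, hΦ.le_one _⟩⟩
  obtain ⟨⟨M, c⟩, hp, hclose⟩ := h𝓑 g hgl
  have hM := hlen _ hp
  simp only at hM hclose
  have hgv : ∀ θ, g θ = FTf N Φ θ := fun θ => rfl
  simp only [hgv] at hclose
  have hM1 : (M : ℝ) ≤ T ^ θ := hM.trans (Real.rpow_le_rpow_of_exponent_le (by linarith) (min_le_left _ _))
  have hM2 : (M : ℝ) ≤ T ^ (1 / 40 : ℝ) := hM.trans (Real.rpow_le_rpow_of_exponent_le (by linarith) (min_le_right _ _))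
  have a1 := hW1 M hM1 c
  have a4 := hMV M hM2 c
  have hF0 : ∀ θ, 0 ≤ FTf N Φ θ := fun θ => hΦ.nonneg _
  have hF1 : ∀ θ, FTf N Φ θ ≤ 1 := fun θ => hΦ.le_one _
  have hsq : ∀ t : ℝ, |FTf N Φ (ph N t) - ‖dp M c t‖ ^ 2| ≤ 3 * μ := by
    intro t
    have h5 := sq_close hμ0.le (by linarith) (Real.sqrt_nonneg (FTf N Φ (ph N t)))
      (Real.sqrt_le_one.2 (hF1 _)) (norm_nonneg (dp M c t)) (hclose t)
    rwa [Real.sq_sqrt (hF0 _)] at h5
  -- closeness outside the bad heights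
  have hnb : ∀ t : ℝ, ¬ Bad a b B (μ / (D + 1)) N t → |Φ (zv t) - FTf N Φ (ph N t)| ≤ μ := by
    intro t ht
    have h5 : |Φ (zv t) - FTf N Φ (ph N t)| ≤ D * (μ / (D + 1)) := by
      apply hΦ.lip _ _ _ (by positivity)
      intro z hz
      unfold Bad at ht
      push Not at ht
      have h6 := ht z (hKr hz)
      unfold E at h6
      rw [FT_ph]
      exact h6.le
    refine h5.trans ?_
    rw [mul_div_assoc', div_le_iff₀ (by positivity)]
    nlinarith
  have hb : ∀ t : ℝ, |Φ (zv t) - FTf N Φ (ph N t)| ≤ 1 := by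
    intro t
    rw [abs_le]
    constructor <;> linarith [hΦ.nonneg (zv t), hΦ.le_one (zv t), hF0 (ph N t), hF1 (ph N t)]
  -- the number of zeros
  have hθ₂1 : ((1 : ℕ) : ℝ) ≤ T ^ θ₂ := by rw [Nat.cast_one]; exact Real.one_le_rpow (by linarith) hθ₂0.le
  have hone := (hSA 1 hθ₂1 (fun _ => 1)).2.2
  have hN21 : N2 1 (fun _ => (1 : ℂ)) = 1 := by simp [N2]
  have hdp1 : ∀ t : ℝ, dp 1 (fun _ => (1 : ℂ)) t = 1 := by intro t; simp [dp]
  simp only [hN21, hdp1, norm_one, one_pow, mul_one] at hone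
  set L := Real.log T with hLdef
  set w := L / (2 * Real.pi) with hw
  have hw0 : 0 < w := by positivity
  have hwL : w ≤ L / 6 := by
    rw [hw]
    apply div_le_div_of_nonneg_left hL.le (by norm_num) (by linarith)
  have hTL : 0 < T * L := by positivity
  have hall : ∑ s ∈ H370.Zf riemannZeta T (2 * T), (mz s : ℝ) ≤ T * L := by
    have h1 := (abs_le.1 hone).2
    have h2 : w * T ≤ L / 6 * T := by gcongr
    have h3 : μ * L * T ≤ 1 / 64 * L * T := by gcongr
    linarith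
  -- the weights
  have hWs : ∑ s ∈ H370.Zf riemannZeta T (2 * T), (mz s : ℝ) * W T s ^ 2 ≤ C * T * L := by
    refine hC₀.trans ?_
    have : C₀ ≤ C := le_max_left _ _
    gcongr
  have hAM : ∀ x y : ℝ, |x * y| ≤ lam * x ^ 2 + A * y ^ 2 := by
    intro x y
    have h5 : 0 ≤ lam * (|x| - |y| / (2 * lam)) ^ 2 := by positivity
    have h6 : lam * (|x| - |y| / (2 * lam)) ^ 2 = lam * |x| ^ 2 - |x| * |y| + 1 / (4 * lam) * |y| ^ 2 := by
      field_simp
      ring
    rw [abs_mul, ← sq_abs x, ← sq_abs y, hA]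
    linarith
  -- first error
  have e1 : |∑ s ∈ H370.Zf riemannZeta T (2 * T), (mz s : ℝ) * (W T s * (Φ (zv s.im) - FTf N Φ (ph N s.im)))| ≤
      ε / 8 * (T * L) + A * (μ ^ 2 + μ) * (T * L) := by
    calc _ ≤ ∑ s ∈ H370.Zf riemannZeta T (2 * T), |(mz s : ℝ) * (W T s * (Φ (zv s.im) - FTf N Φ (ph N s.im)))| :=
          Finset.abs_sum_le_sum_abs _ _
      _ ≤ ∑ s ∈ H370.Zf riemannZeta T (2 * T), (lam * ((mz s : ℝ) * W T s ^ 2) + A * μ ^ 2 * (mz s : ℝ) +
            A * (if Bad a b B (μ / (D + 1)) N s.im then (mz s : ℝ) else 0)) := by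
          apply Finset.sum_le_sum
          intro s _
          have hm : (0 : ℝ) ≤ (mz s : ℝ) := Nat.cast_nonneg _
          rw [abs_mul, abs_of_nonneg hm]
          have h5 := hAM (W T s) (Φ (zv s.im) - FTf N Φ (ph N s.im))
          split_ifs with hbd
          · have h6 : (Φ (zv s.im) - FTf N Φ (ph N s.im)) ^ 2 ≤ 1 := by
              rw [← sq_abs]
              exact pow_le_one₀ (abs_nonneg _) (hb _)
            have h7 : A * (Φ (zv s.im) - FTf N Φ (ph N s.im)) ^ 2 ≤ A * 1 := by gcongr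
            have h8 : 0 ≤ A * μ ^ 2 := by positivity
            calc (mz s : ℝ) * |W T s * (Φ (zv s.im) - FTf N Φ (ph N s.im))| ≤
                (mz s : ℝ) * (lam * W T s ^ 2 + (A * μ ^ 2 + A)) := by
                  apply mul_le_mul_of_nonneg_left _ hm
                  linarith
              _ = _ := by ring
          · have h6 : (Φ (zv s.im) - FTf N Φ (ph N s.im)) ^ 2 ≤ μ ^ 2 := by
              rw [← sq_abs]
              exact pow_le_pow_left₀ (abs_nonneg _) (hnb _ hbd) 2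
            have h7 : A * (Φ (zv s.im) - FTf N Φ (ph N s.im)) ^ 2 ≤ A * μ ^ 2 := by gcongr
            calc (mz s : ℝ) * |W T s * (Φ (zv s.im) - FTf N Φ (ph N s.im))| ≤
                (mz s : ℝ) * (lam * W T s ^ 2 + A * μ ^ 2) := by
                  apply mul_le_mul_of_nonneg_left _ hm
                  linarith
              _ = _ := by ring
      _ = lam * ∑ s ∈ H370.Zf riemannZeta T (2 * T), ((mz s : ℝ) * W T s ^ 2) +
            A * μ ^ 2 * ∑ s ∈ H370.Zf riemannZeta T (2 * T), (mz s : ℝ) +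
            A * ∑ s ∈ (H370.Zf riemannZeta T (2 * T)).filter (fun s => Bad a b B (μ / (D + 1)) N s.im), (mz s : ℝ) := by
          rw [Finset.sum_add_distrib, Finset.sum_add_distrib, Finset.sum_filter, Finset.mul_sum, Finset.mul_sum,
            Finset.mul_sum]
      _ ≤ lam * (C * T * L) + A * μ ^ 2 * (T * L) + A * (μ * T * L) := by
          gcongr
          exact hb2
      _ = _ := by
          have : lam * (C * T * L) = (lam * C) * (T * L) := by ring
          rw [this, hlamC]; ring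
  -- second error
  have e2 : |∑ s ∈ H370.Zf riemannZeta T (2 * T), (mz s : ℝ) * (W T s * (FTf N Φ (ph N s.im) - ‖dp M c s.im‖ ^ 2))| ≤
      ε / 8 * (T * L) + A * (9 * μ ^ 2) * (T * L) := by
    calc _ ≤ ∑ s ∈ H370.Zf riemannZeta T (2 * T), |(mz s : ℝ) * (W T s * (FTf N Φ (ph N s.im) - ‖dp M c s.im‖ ^ 2))| :=
          Finset.abs_sum_le_sum_abs _ _
      _ ≤ ∑ s ∈ H370.Zf riemannZeta T (2 * T), (lam * ((mz s : ℝ) * W T s ^ 2) + A * (9 * μ ^ 2) * (mz s : ℝ)) := by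
          apply Finset.sum_le_sum
          intro s _
          have hm : (0 : ℝ) ≤ (mz s : ℝ) := Nat.cast_nonneg _
          rw [abs_mul, abs_of_nonneg hm]
          have h5 := hAM (W T s) (FTf N Φ (ph N s.im) - ‖dp M c s.im‖ ^ 2)
          have h6 : (FTf N Φ (ph N s.im) - ‖dp M c s.im‖ ^ 2) ^ 2 ≤ 9 * μ ^ 2 := by
            rw [← sq_abs]
            calc |FTf N Φ (ph N s.im) - ‖dp M c s.im‖ ^ 2| ^ 2 ≤ (3 * μ) ^ 2 :=
                  pow_le_pow_left₀ (abs_nonneg _) (hsq _) 2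
              _ = 9 * μ ^ 2 := by ring
          have h7 : A * (FTf N Φ (ph N s.im) - ‖dp M c s.im‖ ^ 2) ^ 2 ≤ A * (9 * μ ^ 2) := by gcongr
          calc (mz s : ℝ) * |W T s * (FTf N Φ (ph N s.im) - ‖dp M c s.im‖ ^ 2)| ≤
              (mz s : ℝ) * (lam * W T s ^ 2 + A * (9 * μ ^ 2)) := by
                apply mul_le_mul_of_nonneg_left _ hm
                linarith
            _ = _ := by ring
      _ = lam * ∑ s ∈ H370.Zf riemannZeta T (2 * T), ((mz s : ℝ) * W T s ^ 2) +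
            A * (9 * μ ^ 2) * ∑ s ∈ H370.Zf riemannZeta T (2 * T), (mz s : ℝ) := by
          rw [Finset.sum_add_distrib, Finset.mul_sum, Finset.mul_sum]
      _ ≤ lam * (C * T * L) + A * (9 * μ ^ 2) * (T * L) := by
          gcongr
      _ = _ := by
          have : lam * (C * T * L) = (lam * C) * (T * L) := by ring
          rw [this, hlamC]
  -- the sum
  have e3 : ∑ s ∈ H370.Zf riemannZeta T (2 * T), (mz s : ℝ) * (W T s * Φ (zv s.im)) =
      ∑ s ∈ H370.Zf riemannZeta T (2 * T), (mz s : ℝ) * (W T s * (Φ (zv s.im) - FTf N Φ (ph N s.im))) +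
      ∑ s ∈ H370.Zf riemannZeta T (2 * T), (mz s : ℝ) * (W T s * (FTf N Φ (ph N s.im) - ‖dp M c s.im‖ ^ 2)) +
      ∑ s ∈ H370.Zf riemannZeta T (2 * T), (mz s : ℝ) * (W T s * ‖dp M c s.im‖ ^ 2) := by
    rw [← Finset.sum_add_distrib, ← Finset.sum_add_distrib]
    apply Finset.sum_congr rfl
    intro s _
    ring
  -- the integrals
  set X := T * N2 M c with hX
  have hX0 : 0 ≤ X := by
    rw [hX]; unfold N2; positivity
  set J := ∫ t in T..(2 * T), ‖dp M c t‖ ^ 2 with hJ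
  set K₁ := ∫ t in T..(2 * T), FTf N Φ (ph N t) with hK₁
  set K₂ := ∫ t in T..(2 * T), Φ (zv t) with hK₂
  have hi1 : IntervalIntegrable (fun t => ‖dp M c t‖ ^ 2) volume T (2 * T) :=
    ((dp_cont M c).norm.pow 2).intervalIntegrable _ _
  have hc2 : Continuous fun t : ℝ => FTf N Φ (ph N t) := hgc.comp (ph_cont N)
  have hi2 : IntervalIntegrable (fun t : ℝ => FTf N Φ (ph N t)) volume T (2 * T) := hc2.intervalIntegrable _ _
  have hc3 : Continuous fun t : ℝ => Φ (zv t) := val_cont hK hK1 hD hΦ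
  have hi3 : IntervalIntegrable (fun t : ℝ => Φ (zv t)) volume T (2 * T) := hc3.intervalIntegrable _ _
  have g1 : |J - K₁| ≤ 3 * μ * T := by
    rw [hJ, hK₁, ← intervalIntegral.integral_sub hi1 hi2]
    have h1 := intervalIntegral.norm_integral_le_of_norm_le_const (a := T) (b := 2 * T) (C := 3 * μ)
      (f := fun t => ‖dp M c t‖ ^ 2 - FTf N Φ (ph N t)) (by
        intro t _
        rw [Real.norm_eq_abs, abs_sub_comm]
        exact hsq t)
    rw [Real.norm_eq_abs] at h1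
    refine h1.trans (le_of_eq ?_)
    rw [show 2 * T - T = T by ring, abs_of_pos hT0]
  have g2 : |K₂ - K₁| ≤ 2 * μ * T := by
    rw [hK₂, hK₁, ← intervalIntegral.integral_sub hi3 hi2]
    have h5 : |∫ t in T..(2 * T), (Φ (zv t) - FTf N Φ (ph N t))| ≤ ∫ t in T..(2 * T), |Φ (zv t) - FTf N Φ (ph N t)| :=
      intervalIntegral.abs_integral_le_integral_abs (by linarith)
    refine h5.trans ?_
    have h6 := int_le (fun t => |Φ (zv t) - FTf N Φ (ph N t)|) ((hc3.sub hc2).abs) hb μ hμ0.le T hT0.le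
    refine h6.trans ?_
    have h7 : V T (fun t => μ < |Φ (zv t) - FTf N Φ (ph N t)|) ≤ μ * T := by
      have h8 := ENNReal.toReal_mono ENNReal.ofReal_ne_top hb1
      rw [ENNReal.toReal_ofReal (by positivity)] at h8
      refine le_trans ?_ h8
      apply ENNReal.toReal_mono (V_fin T (Bad a b B (μ / (D + 1)) N))
      apply measure_mono
      rintro t ⟨ht, h9⟩
      refine ⟨ht, ?_⟩
      by_contra hcon
      exact absurd (hnb t hcon) (not_le.2 h9)
    linarith
  have g3 : K₂ ≤ T ∧ 0 ≤ K₂ := by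
    constructor
    · have h5 : K₂ ≤ ∫ t in T..(2 * T), (1 : ℝ) :=
        intervalIntegral.integral_mono (by linarith) hi3 (by simp) (fun t => hΦ.le_one _)
      simp only [intervalIntegral.integral_const, smul_eq_mul, mul_one] at h5
      linarith
    · exact intervalIntegral.integral_nonneg (by linarith) fun t _ => hΦ.nonneg _
  rw [abs_le] at g1 g2 a4
  have hμT : μ * T ≤ 1 / 64 * T := by gcongr
  have hμX : μ * X ≤ 1 / 64 * X := mul_le_mul_of_nonneg_right hμ1 hX0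
  have hX1 : X ≤ 4 * T := by linarith [a4.1, g1.2, g2.1]
  have hμX4 : μ * X ≤ 4 * (μ * T) := by
    have := mul_le_mul_of_nonneg_left hX1 hμ0.le
    linarith
  have g4 : |X - K₂| ≤ 9 * μ * T := by
    rw [abs_le]
    constructor <;> linarith [a4.1, a4.2, g1.1, g1.2, g2.1, g2.2]
  have g5 : κ * w * K₂ - |κ| * (L / 6) * (9 * μ * T) ≤ κ * w * X := by
    have h5 : |κ * w * (X - K₂)| ≤ |κ| * (L / 6) * (9 * μ * T) := by
      rw [abs_mul, abs_mul, abs_of_pos hw0]
      gcongr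
    have h6 := (abs_le.1 h5).1
    have h7 : κ * w * (X - K₂) = κ * w * X - κ * w * K₂ := by ring
    linarith
  have g6 : μ * L * X ≤ 4 * μ * (T * L) := by
    calc μ * L * X = (μ * X) * L := by ring
      _ ≤ (4 * (μ * T)) * L := by gcongr
      _ = _ := by ring
  rw [e3]
  have f1 := (abs_le.1 e1).1
  have f2 := (abs_le.1 e2).1
  have f3 : A * (μ ^ 2 + μ) * (T * L) + A * (9 * μ ^ 2) * (T * L) + 4 * μ * (T * L) + |κ| * (L / 6) * (9 * μ * T) ≤
      ε / 4 * (T * L) := by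
    have h5 : μ ^ 2 ≤ μ := by nlinarith
    have h6 : A * (μ ^ 2 + μ) + A * (9 * μ ^ 2) + 4 * μ + |κ| / 6 * (9 * μ) ≤ μ * (11 * A + 4 + 2 * |κ|) := by
      nlinarith [mul_le_mul_of_nonneg_left h5 hA0.le, mul_nonneg (abs_nonneg κ) hμ0.le]
    have h7 := h6.trans hμ2
    calc _ = (A * (μ ^ 2 + μ) + A * (9 * μ ^ 2) + 4 * μ + |κ| / 6 * (9 * μ)) * (T * L) := by ring
      _ ≤ _ := by gcongr
  have hεTL : 0 < ε * (T * L) := by positivity
  have a1' : κ * w * X - μ * L * X ≤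
      ∑ s ∈ H370.Zf riemannZeta T (2 * T), (mz s : ℝ) * (W T s * ‖dp M c s.im‖ ^ 2) := a1
  have hfin : ε * T * L = ε * (T * L) := by ring
  rw [hfin]
  linarith

end Pool.Agent.H510.PC
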